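import Mathlib

set_option autoImplicit false

namespace Pool.Agent.KS6_19.HE

open SimpleGraph

/-- The permutation `σ` runs once round a Hamilton cycle of `G`. -/
def IsHam {V : Type} (G : SimpleGraph V) (σ : Equiv.Perm V) : Prop :=
  (∀ v, G.Adj v (σ v)) ∧
    ∀ X : Set V, X.Nonempty → (∀ v ∈ X, σ v ∈ X) → X = Set.univ

lemma IsHam.inv {V : Type} {G : SimpleGraph V} {σ : Equiv.Perm V} (h : IsHam G σ) :
    IsHam G σ.symm := by
  refine ⟨fun v => ?_, fun X hX hcl => ?_⟩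
  · have := h.1 (σ.symm v)
    rw [Equiv.apply_symm_apply] at this
    exact this.symm
  · by_contra hne
    have h1 := h.2 Xᶜ (by rwa [Set.nonempty_compl]) (by
      intro v hv hv'
      apply hv
      have := hcl _ hv'
      rwa [Equiv.symm_apply_apply] at this)
    rw [Set.compl_univ_iff] at h1
    exact hX.ne_empty h1

lemma IsHam.apply_ne {V : Type} {G : SimpleGraph V} {σ : Equiv.Perm V} (h : IsHam G σ) (v : V) :
    σ v ≠ v := (h.1 v).ne'

lemma IsHam.apply_apply_ne {V : Type} {G : SimpleGraph V} {σ : Equiv.Perm V} (h : IsHam G σ)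
    (h3 : ∀ a b : V, ∃ c, c ≠ a ∧ c ≠ b) (v : V) : σ (σ v) ≠ v := by
  intro hv
  have h1 := h.2 {v, σ v} ⟨v, by simp⟩ (by
    intro w hw
    rcases hw with rfl | hw
    · simp
    · rw [Set.mem_singleton_iff] at hw
      rw [hw, hv]
      simp)
  obtain ⟨c, hc1, hc2⟩ := h3 v (σ v)
  have : c ∈ ({v, σ v} : Set V) := by rw [h1]; trivial
  rcases this with h | h
  · exact hc1 h
  · exact hc2 h

/-- A perfect matching between the neighbours of `v₁` and those of `v₂`. -/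
structure NbMatch {V₁ V₂ : Type} (G₁ : SimpleGraph V₁) (v₁ : V₁) (G₂ : SimpleGraph V₂) (v₂ : V₂)
    (M : V₁ → V₂ → Prop) : Prop where
  left : ∀ u w, M u w → G₁.Adj v₁ u
  right : ∀ u w, M u w → G₂.Adj v₂ w
  func : ∀ u w w', M u w → M u w' → w = w'
  inj : ∀ u u' w, M u w → M u' w → u = u'
  tot : ∀ u, G₁.Adj v₁ u → ∃ w, M u w
  surj : ∀ w, G₂.Adj v₂ w → ∃ u, M u w

lemma exists_nbMatch {V₁ V₂ : Type} {G₁ : SimpleGraph V₁} {G₂ : SimpleGraph V₂}
    (h₁ : ∀ v, {w | G₁.Adj v w}.ncard = 3) (h₂ : ∀ v, {w | G₂.Adj v w}.ncard = 3) (v₁ : V₁) (v₂ : V₂) : ∃ M, NbMatch G₁ v₁ G₂ v₂ M := by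
  obtain ⟨x, y, z, hxy, hxz, hyz, hs⟩ := Set.ncard_eq_three.1 (h₁ v₁)
  obtain ⟨x', y', z', hxy', hxz', hyz', hs'⟩ := Set.ncard_eq_three.1 (h₂ v₂)
  have e1 : ∀ u, G₁.Adj v₁ u ↔ u = x ∨ u = y ∨ u = z := by
    intro u
    have : u ∈ {w | G₁.Adj v₁ w} ↔ u ∈ ({x, y, z} : Set V₁) := by rw [hs]
    simpa using this
  have e2 : ∀ u, G₂.Adj v₂ u ↔ u = x' ∨ u = y' ∨ u = z' := by
    intro u
    have : u ∈ {w | G₂.Adj v₂ w} ↔ u ∈ ({x', y', z'} : Set V₂) := by rw [hs']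
    simpa using this
  refine ⟨fun u w => (u = x ∧ w = x') ∨ (u = y ∧ w = y') ∨ (u = z ∧ w = z'), ?_, ?_, ?_, ?_, ?_, ?_⟩
  · intro u w h
    rw [e1]
    tauto
  · intro u w h
    rw [e2]
    tauto
  · rintro u w w' (⟨rfl, rfl⟩ | ⟨rfl, rfl⟩ | ⟨rfl, rfl⟩) (⟨h1, h2⟩ | ⟨h1, h2⟩ | ⟨h1, h2⟩) <;>
      first
      | exact h2.symm
      | exact absurd h1 (by assumption)
      | exact absurd h1.symm (by assumption)
  · rintro u u' w (⟨rfl, rfl⟩ | ⟨rfl, rfl⟩ | ⟨rfl, rfl⟩) (⟨h1, h2⟩ | ⟨h1, h2⟩ | ⟨h1, h2⟩) <;>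
      first
      | exact h1.symm
      | exact absurd h2 (by assumption)
      | exact absurd h2.symm (by assumption)
  · intro u hu
    rw [e1] at hu
    rcases hu with rfl | rfl | rfl
    · exact ⟨x', Or.inl ⟨rfl, rfl⟩⟩
    · exact ⟨y', Or.inr (Or.inl ⟨rfl, rfl⟩)⟩
    · exact ⟨z', Or.inr (Or.inr ⟨rfl, rfl⟩)⟩
  · intro u hu
    rw [e2] at hu
    rcases hu with rfl | rfl | rfl
    · exact ⟨x, Or.inl ⟨rfl, rfl⟩⟩
    · exact ⟨y, Or.inr (Or.inl ⟨rfl, rfl⟩)⟩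
    · exact ⟨z, Or.inr (Or.inr ⟨rfl, rfl⟩)⟩

section Glue

variable {V₁ V₂ : Type} (G₁ : SimpleGraph V₁) (v₁ : V₁) (G₂ : SimpleGraph V₂) (v₂ : V₂)
  (M : V₁ → V₂ → Prop)

/-- Delete `v₁` from `G₁` and `v₂` from `G₂` and join their neighbours by the matching `M`. -/
def glue : SimpleGraph ({u : V₁ // u ≠ v₁} ⊕ {w : V₂ // w ≠ v₂}) where
  Adj
    | Sum.inl u, Sum.inl u' => G₁.Adj u u'
    | Sum.inr w, Sum.inr w' => G₂.Adj w w'
    | Sum.inl u, Sum.inr w => M u w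
    | Sum.inr w, Sum.inl u => M u w
  symm := ⟨by
    rintro (u | w) (u' | w') h
    · exact (show G₁.Adj _ _ from h).symm
    · exact h
    · exact h
    · exact (show G₂.Adj _ _ from h).symm⟩
  loopless := ⟨by
    rintro (u | w) h
    · exact (show G₁.Adj _ _ from h).ne rfl
    · exact (show G₂.Adj _ _ from h).ne rfl⟩

variable {G₁ v₁ G₂ v₂ M}

@[simp] lemma glue_ll (u u') : (glue G₁ v₁ G₂ v₂ M).Adj (Sum.inl u) (Sum.inl u') ↔
    G₁.Adj u u' := Iff.rfl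
@[simp] lemma glue_rr (w w') : (glue G₁ v₁ G₂ v₂ M).Adj (Sum.inr w) (Sum.inr w') ↔
    G₂.Adj w w' := Iff.rfl
@[simp] lemma glue_lr (u w) : (glue G₁ v₁ G₂ v₂ M).Adj (Sum.inl u) (Sum.inr w) ↔
    M u w := Iff.rfl
@[simp] lemma glue_rl (u w) : (glue G₁ v₁ G₂ v₂ M).Adj (Sum.inr w) (Sum.inl u) ↔
    M u w := Iff.rfl


section Comb

variable [DecidableEq V₁] [DecidableEq V₂]

/-- Splice two Hamilton cycles. -/
def combFun (σ₁ : Equiv.Perm V₁) (σ₂ : Equiv.Perm V₂) (h₁ : σ₁ v₁ ≠ v₁) (h₂ : σ₂ v₂ ≠ v₂) :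
    {u : V₁ // u ≠ v₁} ⊕ {w : V₂ // w ≠ v₂} → {u : V₁ // u ≠ v₁} ⊕ {w : V₂ // w ≠ v₂}
  | Sum.inl u => if h : σ₁ u = v₁ then Sum.inr ⟨σ₂ v₂, h₂⟩ else Sum.inl ⟨σ₁ u, h⟩
  | Sum.inr w => if h : σ₂ w = v₂ then Sum.inl ⟨σ₁ v₁, h₁⟩ else Sum.inr ⟨σ₂ w, h⟩

lemma combFun_inj (σ₁ : Equiv.Perm V₁) (σ₂ : Equiv.Perm V₂) (h₁ : σ₁ v₁ ≠ v₁) (h₂ : σ₂ v₂ ≠ v₂) :
    Function.Injective (combFun σ₁ σ₂ h₁ h₂) := by
  rintro (u | w) (u' | w') h
  · simp only [combFun] at h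
    split_ifs at h with g1 g2 g2
    · have := σ₁.injective (g1.trans g2.symm)
      rw [Subtype.ext this]
    · have h' := Sum.inl_injective h
      have := σ₁.injective (congrArg Subtype.val h')
      rw [Subtype.ext this]
  · simp only [combFun] at h
    split_ifs at h with g1 g2 g2
    · have h' := congrArg Subtype.val (Sum.inr_injective h)
      exact absurd (σ₂.injective h').symm w'.2
    · have h' := congrArg Subtype.val (Sum.inl_injective h)
      exact absurd (σ₁.injective h') u.2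
  · simp only [combFun] at h
    split_ifs at h with g1 g2 g2
    · have h' := congrArg Subtype.val (Sum.inl_injective h)
      exact absurd (σ₁.injective h').symm u'.2
    · have h' := congrArg Subtype.val (Sum.inr_injective h)
      exact absurd (σ₂.injective h') w.2
  · simp only [combFun] at h
    split_ifs at h with g1 g2 g2
    · have := σ₂.injective (g1.trans g2.symm)
      rw [Subtype.ext this]
    · have h' := Sum.inr_injective h
      have := σ₂.injective (congrArg Subtype.val h')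
      rw [Subtype.ext this]

lemma exists_comb [Finite V₁] [Finite V₂] {σ₁ : Equiv.Perm V₁} {σ₂ : Equiv.Perm V₂}
    (hσ₁ : IsHam G₁ σ₁) (hσ₂ : IsHam G₂ σ₂) (hM : NbMatch G₁ v₁ G₂ v₂ M)
    (m1 : ∀ u, σ₁ u = v₁ → M u (σ₂ v₂)) (m2 : ∀ w, σ₂ w = v₂ → M (σ₁ v₁) w) :
    ∃ τ, IsHam (glue G₁ v₁ G₂ v₂ M) τ ∧
      (∀ u (hu : u ≠ v₁) (h : σ₁ u ≠ v₁), τ (Sum.inl ⟨u, hu⟩) = Sum.inl ⟨σ₁ u, h⟩) ∧
      (∀ w (hw : w ≠ v₂) (h : σ₂ w ≠ v₂), τ (Sum.inr ⟨w, hw⟩) = Sum.inr ⟨σ₂ w, h⟩) ∧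
      (∀ u (hu : u ≠ v₁) (w) (hw : w ≠ v₂), σ₁ u = v₁ → σ₂ v₂ = w →
        τ (Sum.inl ⟨u, hu⟩) = Sum.inr ⟨w, hw⟩) ∧
      (∀ w (hw : w ≠ v₂) (u) (hu : u ≠ v₁), σ₂ w = v₂ → σ₁ v₁ = u →
        τ (Sum.inr ⟨w, hw⟩) = Sum.inl ⟨u, hu⟩) := by
  have h₁ := hσ₁.apply_ne v₁
  have h₂ := hσ₂.apply_ne v₂
  let τ : Equiv.Perm ({u : V₁ // u ≠ v₁} ⊕ {w : V₂ // w ≠ v₂}) :=
    Equiv.ofBijective (combFun σ₁ σ₂ h₁ h₂)
      (Finite.injective_iff_bijective.1 (combFun_inj σ₁ σ₂ h₁ h₂))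
  have t1 : ∀ u (hu : u ≠ v₁) (h : σ₁ u ≠ v₁), τ (Sum.inl ⟨u, hu⟩) = Sum.inl ⟨σ₁ u, h⟩ :=
    fun u hu h => dif_neg h
  have t2 : ∀ w (hw : w ≠ v₂) (h : σ₂ w ≠ v₂), τ (Sum.inr ⟨w, hw⟩) = Sum.inr ⟨σ₂ w, h⟩ :=
    fun u hu h => dif_neg h
  have t3 : ∀ u (hu : u ≠ v₁), σ₁ u = v₁ → τ (Sum.inl ⟨u, hu⟩) = Sum.inr ⟨σ₂ v₂, h₂⟩ :=
    fun u hu h => dif_pos h
  have t4 : ∀ w (hw : w ≠ v₂), σ₂ w = v₂ → τ (Sum.inr ⟨w, hw⟩) = Sum.inl ⟨σ₁ v₁, h₁⟩ :=
    fun u hu h => dif_pos h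
  refine ⟨τ, ⟨?_, ?_⟩, t1, t2, ?_, ?_⟩
  · rintro (⟨u, hu⟩ | ⟨w, hw⟩)
    · by_cases h : σ₁ u = v₁
      · rw [t3 u hu h]
        exact m1 u h
      · rw [t1 u hu h]
        exact hσ₁.1 u
    · by_cases h : σ₂ w = v₂
      · rw [t4 w hw h]
        exact m2 w h
      · rw [t2 w hw h]
        exact hσ₂.1 w
  · intro X hX hcl
    have c1 : (∃ u, ∃ hu : u ≠ v₁, Sum.inl ⟨u, hu⟩ ∈ X) → Sum.inr ⟨σ₂ v₂, h₂⟩ ∈ X := by
      rintro ⟨u0, hu0, hX0⟩
      by_contra hcon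
      have := hσ₁.2 {u | ∃ hu : u ≠ v₁, Sum.inl ⟨u, hu⟩ ∈ X} ⟨u0, hu0, hX0⟩ (by
        rintro u ⟨hu, huX⟩
        have hτ := hcl _ huX
        by_cases h : σ₁ u = v₁
        · rw [t3 u hu h] at hτ
          exact absurd hτ hcon
        · rw [t1 u hu h] at hτ
          exact ⟨h, hτ⟩)
      have hv : v₁ ∈ {u | ∃ hu : u ≠ v₁, Sum.inl ⟨u, hu⟩ ∈ X} := by rw [this]; trivial
      obtain ⟨hu, -⟩ := hv
      exact hu rfl
    have c2 : (∃ w, ∃ hw : w ≠ v₂, Sum.inr ⟨w, hw⟩ ∈ X) → Sum.inl ⟨σ₁ v₁, h₁⟩ ∈ X := by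
      rintro ⟨u0, hu0, hX0⟩
      by_contra hcon
      have := hσ₂.2 {u | ∃ hu : u ≠ v₂, Sum.inr ⟨u, hu⟩ ∈ X} ⟨u0, hu0, hX0⟩ (by
        rintro u ⟨hu, huX⟩
        have hτ := hcl _ huX
        by_cases h : σ₂ u = v₂
        · rw [t4 u hu h] at hτ
          exact absurd hτ hcon
        · rw [t2 u hu h] at hτ
          exact ⟨h, hτ⟩)
      have hv : v₂ ∈ {u | ∃ hu : u ≠ v₂, Sum.inr ⟨u, hu⟩ ∈ X} := by rw [this]; trivial
      obtain ⟨hu, -⟩ := hv
      exact hu rfl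
    have d1 : Sum.inr ⟨σ₂ v₂, h₂⟩ ∈ X := by
      obtain ⟨(⟨u, hu⟩ | ⟨w, hw⟩), hx⟩ := hX
      · exact c1 ⟨u, hu, hx⟩
      · exact c1 ⟨_, _, c2 ⟨w, hw, hx⟩⟩
    have d2 : Sum.inl ⟨σ₁ v₁, h₁⟩ ∈ X := c2 ⟨_, _, d1⟩
    have e1 := hσ₁.2 {u | ∀ hu : u ≠ v₁, Sum.inl ⟨u, hu⟩ ∈ X} ⟨v₁, fun h => absurd rfl h⟩ (by
      intro u hu hne
      by_cases h : u = v₁
      · subst h
        exact d2
      · have hτ := hcl _ (hu h)
        rwa [t1 u h hne] at hτ)
    have e2 := hσ₂.2 {u | ∀ hu : u ≠ v₂, Sum.inr ⟨u, hu⟩ ∈ X} ⟨v₂, fun h => absurd rfl h⟩ (by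
      intro u hu hne
      by_cases h : u = v₂
      · subst h
        exact d1
      · have hτ := hcl _ (hu h)
        rwa [t2 u h hne] at hτ)
    ext x
    simp only [Set.mem_univ, iff_true]
    rcases x with ⟨u, hu⟩ | ⟨w, hw⟩
    · have : u ∈ {u | ∀ hu : u ≠ v₁, Sum.inl ⟨u, hu⟩ ∈ X} := by rw [e1]; trivial
      exact this hu
    · have : w ∈ {u | ∀ hu : u ≠ v₂, Sum.inr ⟨u, hu⟩ ∈ X} := by rw [e2]; trivial
      exact this hw
  · intro u hu w hw h g
    subst g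
    exact t3 u hu h
  · intro w hw u hu h g
    subst g
    exact t4 w hw h

end Comb

lemma ncard_sum {A B : Type} [Finite A] [Finite B] (S : Set (A ⊕ B)) :
    S.ncard = (Sum.inl ⁻¹' S).ncard + (Sum.inr ⁻¹' S).ncard := by
  have h : S = Sum.inl '' (Sum.inl ⁻¹' S) ∪ Sum.inr '' (Sum.inr ⁻¹' S) := by
    ext (x | x) <;> simp
  conv_lhs => rw [h]
  rw [Set.ncard_union_eq, Set.ncard_image_of_injective _ Sum.inl_injective,
    Set.ncard_image_of_injective _ Sum.inr_injective]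
  rw [Set.disjoint_left]
  rintro _ ⟨a, -, rfl⟩ ⟨b, -, hb⟩
  cases hb

lemma ncard_sub {A : Type} (v : A) (S : Set A) :
    {x : {u // u ≠ v} | (x : A) ∈ S}.ncard = (S \ {v}).ncard := by
  rw [← Set.ncard_image_of_injective _ Subtype.val_injective]
  congr 1
  ext x
  constructor
  · rintro ⟨y, hy, rfl⟩
    exact ⟨hy, y.2⟩
  · rintro ⟨hx, hxv⟩
    exact ⟨⟨x, hxv⟩, hx, rfl⟩

lemma glue_reg [Finite V₁] [Finite V₂] (h₁ : ∀ v, {w | G₁.Adj v w}.ncard = 3)
    (h₂ : ∀ v, {w | G₂.Adj v w}.ncard = 3) (hM : NbMatch G₁ v₁ G₂ v₂ M) (x) :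
    {w | (glue G₁ v₁ G₂ v₂ M).Adj x w}.ncard = 3 := by
  rw [ncard_sum]
  rcases x with ⟨u, hu⟩ | ⟨u, hu⟩
  · have e1 : (Sum.inl ⁻¹' {w | (glue G₁ v₁ G₂ v₂ M).Adj (Sum.inl ⟨u, hu⟩) w}).ncard =
        ({w | G₁.Adj u w} \ {v₁}).ncard := ncard_sub v₁ {w | G₁.Adj u w}
    rw [e1]
    by_cases h : G₁.Adj u v₁
    · obtain ⟨w0, hw0⟩ := hM.tot u h.symm
      have hw0' : w0 ≠ v₂ := (hM.right _ _ hw0).ne'
      have e2 : Sum.inr ⁻¹' {w | (glue G₁ v₁ G₂ v₂ M).Adj (Sum.inl ⟨u, hu⟩) w} =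
          {(⟨w0, hw0'⟩ : {w : V₂ // w ≠ v₂})} := by
        ext ⟨w, hw⟩
        simp only [Set.mem_preimage, Set.mem_ofPred_eq, glue_lr, Set.mem_singleton_iff,
          Subtype.mk.injEq]
        exact ⟨fun h' => hM.func _ _ _ h' hw0, fun h' => h' ▸ hw0⟩
      rw [e2, Set.ncard_singleton, Set.ncard_sdiff_singleton_of_mem (show v₁ ∈ {w | G₁.Adj u w} from h),
        h₁ u]
    · have e2 : Sum.inr ⁻¹' {w | (glue G₁ v₁ G₂ v₂ M).Adj (Sum.inl ⟨u, hu⟩) w} =
          (∅ : Set {w : V₂ // w ≠ v₂}) := by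
        ext ⟨w, hw⟩
        simp only [Set.mem_preimage, Set.mem_ofPred_eq, glue_lr, Set.mem_empty_iff_false, iff_false]
        exact fun h' => h (hM.left _ _ h').symm
      rw [e2, Set.ncard_empty, Set.sdiff_singleton_eq_self (show v₁ ∉ {w | G₁.Adj u w} from h), h₁ u]
  · have e1 : (Sum.inr ⁻¹' {w | (glue G₁ v₁ G₂ v₂ M).Adj (Sum.inr ⟨u, hu⟩) w}).ncard =
        ({w | G₂.Adj u w} \ {v₂}).ncard := ncard_sub v₂ {w | G₂.Adj u w}
    rw [e1]
    by_cases h : G₂.Adj u v₂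
    · obtain ⟨w0, hw0⟩ := hM.surj u h.symm
      have hw0' : w0 ≠ v₁ := (hM.left _ _ hw0).ne'
      have e2 : Sum.inl ⁻¹' {w | (glue G₁ v₁ G₂ v₂ M).Adj (Sum.inr ⟨u, hu⟩) w} =
          {(⟨w0, hw0'⟩ : {w : V₁ // w ≠ v₁})} := by
        ext ⟨w, hw⟩
        simp only [Set.mem_preimage, Set.mem_ofPred_eq, glue_rl, Set.mem_singleton_iff,
          Subtype.mk.injEq]
        exact ⟨fun h' => hM.inj _ _ _ h' hw0, fun h' => h' ▸ hw0⟩
      rw [e2, Set.ncard_singleton, Set.ncard_sdiff_singleton_of_mem (show v₂ ∈ {w | G₂.Adj u w} from h),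
        h₂ u]
    · have e2 : Sum.inl ⁻¹' {w | (glue G₁ v₁ G₂ v₂ M).Adj (Sum.inr ⟨u, hu⟩) w} =
          (∅ : Set {w : V₁ // w ≠ v₁}) := by
        ext ⟨w, hw⟩
        simp only [Set.mem_preimage, Set.mem_ofPred_eq, glue_rl, Set.mem_empty_iff_false, iff_false]
        exact fun h' => h (hM.right _ _ h').symm
      rw [e2, Set.ncard_empty, Set.sdiff_singleton_eq_self (show v₂ ∉ {w | G₂.Adj u w} from h), h₂ u]

lemma exists_comb' [Finite V₁] [Finite V₂] {σ₁ : Equiv.Perm V₁} {σ₂ : Equiv.Perm V₂}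
    (hσ₁ : IsHam G₁ σ₁) (hσ₂ : IsHam G₂ σ₂) (hM : NbMatch G₁ v₁ G₂ v₂ M) {um up : V₁} {wm wp : V₂}
    (g1 : σ₁ um = v₁) (g2 : σ₁ v₁ = up) (g3 : σ₂ wp = v₂) (g4 : σ₂ v₂ = wm)
    (m1 : M um wm) (m2 : M up wp) :
    ∃ τ, IsHam (glue G₁ v₁ G₂ v₂ M) τ ∧
      (∀ u (hu : u ≠ v₁) (h : σ₁ u ≠ v₁), τ (Sum.inl ⟨u, hu⟩) = Sum.inl ⟨σ₁ u, h⟩) ∧
      (∀ w (hw : w ≠ v₂) (h : σ₂ w ≠ v₂), τ (Sum.inr ⟨w, hw⟩) = Sum.inr ⟨σ₂ w, h⟩) ∧
      (∀ u (hu : u ≠ v₁) (w) (hw : w ≠ v₂), σ₁ u = v₁ → σ₂ v₂ = w →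
        τ (Sum.inl ⟨u, hu⟩) = Sum.inr ⟨w, hw⟩) ∧
      (∀ w (hw : w ≠ v₂) (u) (hu : u ≠ v₁), σ₂ w = v₂ → σ₁ v₁ = u →
        τ (Sum.inr ⟨w, hw⟩) = Sum.inl ⟨u, hu⟩) := by
  classical
  refine exists_comb hσ₁ hσ₂ hM ?_ ?_
  · intro u hu
    rw [σ₁.injective (hu.trans g1.symm), g4]
    exact m1
  · intro w hw
    rw [σ₂.injective (hw.trans g3.symm), g2]
    exact m2

end Glue

lemma walk_edge {V : Type} {G : SimpleGraph V} : ∀ {u v : V} (p : G.Walk u v) (i : ℕ),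
    i < p.length → s(p.getVert i, p.getVert (i + 1)) ∈ p.edges := by
  intro u v p
  induction p with
  | nil => intro i hi; simp at hi
  | cons h p ih =>
    intro i hi
    rcases i with _ | i
    · simp
    · simp only [SimpleGraph.Walk.getVert_cons_succ, SimpleGraph.Walk.edges_cons, List.mem_cons]
      right
      exact ih i (by simpa using hi)

lemma edge_walk {V : Type} {G : SimpleGraph V} : ∀ {u v : V} (p : G.Walk u v) (e : Sym2 V),
    e ∈ p.edges → ∃ i, i < p.length ∧ e = s(p.getVert i, p.getVert (i + 1)) := by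
  intro u v p
  induction p with
  | nil => intro e he; simp at he
  | cons h p ih =>
    intro e he
    rw [SimpleGraph.Walk.edges_cons, List.mem_cons] at he
    rcases he with rfl | he
    · exact ⟨0, by simp, by simp⟩
    · obtain ⟨i, hi, rfl⟩ := ih e he
      exact ⟨i + 1, by simpa using hi, by simp⟩

lemma exists_cycle_of_isHam {V : Type} [Fintype V] [DecidableEq V] {G : SimpleGraph V}
    {σ : Equiv.Perm V} (hσ : IsHam G σ) (hc : 3 ≤ Fintype.card V) :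
    ∃ (a : V) (C : G.Walk a a), C.IsHamiltonianCycle ∧ ∀ v, s(v, σ v) ∈ C.edges := by
  obtain ⟨v0⟩ : Nonempty V := Fintype.card_pos_iff.1 (by omega)
  set m := Function.minimalPeriod σ v0 with hm
  have hper : v0 ∈ Function.periodicPts σ := by
    have := σ.injective.mem_periodicPts (x := v0)
    exact this
  have hm0 : 0 < m := Function.minimalPeriod_pos_of_mem_periodicPts hper
  have hfm : σ^[m] v0 = v0 := Function.iterate_minimalPeriod
  have hcov : ∀ v, ∃ k < m, σ^[k] v0 = v := by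
    have := hσ.2 {v | ∃ k < m, σ^[k] v0 = v} ⟨v0, 0, hm0, rfl⟩ (by
      rintro v ⟨k, hk, rfl⟩
      rcases Nat.lt_or_ge (k + 1) m with h | h
      · exact ⟨k + 1, h, Function.iterate_succ_apply' _ _ _⟩
      · refine ⟨0, hm0, ?_⟩
        have h2 : k + 1 = m := by omega
        rw [← Function.iterate_succ_apply' σ, show k.succ = m from h2, hfm]
        rfl)
    intro v
    have hv : v ∈ {v | ∃ k < m, σ^[k] v0 = v} := by rw [this]; trivial
    exact hv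
  let L : List V := (List.range m).map fun k => σ^[k] v0
  have hnd : L.Nodup := by
    refine List.Nodup.map_on ?_ List.nodup_range
    intro i hi j hj hij
    rw [List.mem_range] at hi hj
    exact Function.iterate_injOn_Iio_minimalPeriod hi hj hij
  have hmem : ∀ v, v ∈ L := by
    intro v
    obtain ⟨k, hk, rfl⟩ := hcov v
    exact List.mem_map.2 ⟨k, List.mem_range.2 hk, rfl⟩
  have hLlen : L.length = m := by simp [L]
  have hmc : m = Fintype.card V := by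
    rw [← hLlen]
    have h1 : L.toFinset = Finset.univ := by
      ext v
      simp [hmem v]
    rw [← List.toFinset_card_of_nodup hnd, h1, Finset.card_univ]
  have hchain : L.IsChain G.Adj := by
    rw [List.isChain_map, List.isChain_range]
    intro k _
    rw [Nat.succ_eq_add_one, Function.iterate_succ_apply' σ]
    exact hσ.1 _
  have hne : L ≠ [] := by
    intro h
    rw [h] at hLlen
    simp at hLlen
    omega
  let q := Walk.ofSupport (G := G) L hne hchain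
  have hsup : q.support = L := Walk.support_ofSupport hne hchain
  have hhead : L.head hne = v0 := by
    simp only [L]
    rw [List.head_map]
    simp [List.head_range]
  have hlast : L.getLast hne = σ^[m - 1] v0 := by
    simp only [L]
    rw [List.getLast_map]
    simp [List.getLast_range]
  have hstep : σ (σ^[m - 1] v0) = v0 := by
    rw [← Function.iterate_succ_apply' σ, show (m - 1).succ = m by omega, hfm]
  have hadj : G.Adj (L.getLast hne) (L.head hne) := by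
    rw [hlast, hhead]
    have := hσ.1 (σ^[m - 1] v0)
    rwa [hstep] at this
  have hl : q.length = L.length - 1 := Walk.length_ofSupport hne hchain
  have hqp : q.IsPath := by
    rw [Walk.isPath_def, hsup]; exact hnd
  have hqH : q.IsHamiltonian := hqp.isHamiltonian_of_mem (by rw [hsup]; exact hmem)
  have hcyc : (Walk.cons hadj q).IsCycle := by
    rw [Walk.cons_isCycle_iff]
    refine ⟨hqp, ?_⟩
    intro hmem'
    have : q.length = 1 := by
      have h2 : s(L.head hne, L.getLast hne) ∈ q.edges := by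
        rw [Sym2.eq_swap]; exact hmem'
      exact hqp.length_eq_one_of_mem_edges h2
    omega
  refine ⟨L.getLast hne, Walk.cons hadj q, ⟨hcyc, ?_⟩, ?_⟩
  · intro x
    have := hqH x
    simpa [Walk.tail_cons] using this
  · intro v
    obtain ⟨k, hk, rfl⟩ := hcov v
    rw [Walk.edges_cons, List.mem_cons]
    rcases Nat.lt_or_ge (k + 1) m with h | h
    · right
      have h1 := walk_edge q k (by omega)
      have h2 : ∀ i, i < m → q.getVert i = σ^[i] v0 := by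
        intro i hi
        rw [q.getVert_eq_support_getElem (by omega)]
        simp only [hsup]
        simp [L]
      rw [h2 k hk, h2 (k + 1) h, Function.iterate_succ_apply' σ] at h1
      exact h1
    · left
      have h2 : k = m - 1 := by omega
      rw [h2, hstep, hlast, hhead]

lemma exists_isHam_of_cycle {V : Type} [Fintype V] [DecidableEq V] {G : SimpleGraph V}
    (hcard : 3 ≤ Fintype.card V) {a : V} (p : G.Walk a a) (hp : p.IsHamiltonianCycle) :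
    ∃ σ : Equiv.Perm V, IsHam G σ ∧ ∀ e ∈ p.edges, ∃ v, e = s(v, σ v) := by
  have hnil : ¬ p.Nil := hp.isCycle.not_nil
  have hT := hp.isHamiltonian_tail
  have hlen : p.tail.support.length = Fintype.card V := hT.length_support
  set N := Fintype.card V with hN
  obtain ⟨M, hM⟩ : ∃ M, N = M + 3 := ⟨N - 3, by omega⟩
  let e0 := hT.getVertEquiv
  let e : Fin (M + 3) ≃ V := (finCongr (by rw [hlen, hM])).trans e0
  have he : ∀ i : Fin (M + 3), e i = p.tail.getVert i.val := by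
    intro i
    simp [e, e0]
  have hlt : p.tail.length = M + 2 := by
    have := hT.length_eq
    omega
  let σ : Equiv.Perm V := e.symm.trans ((finRotate (M + 3)).trans e)
  have hσ : ∀ i : Fin (M + 3), σ (e i) = e (i + 1) := by
    intro i
    simp [σ]
  have hlast : σ a = p.snd := by
    have h1 : e (Fin.last (M + 2)) = a := by
      rw [he, Fin.val_last, ← hlt]; exact Walk.getVert_length _
    have h2 := hσ (Fin.last (M + 2))
    rw [h1, Fin.last_add_one, he, Fin.val_zero, Walk.getVert_zero] at h2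
    exact h2
  have hstep : ∀ i, i < M + 2 → σ (p.tail.getVert i) = p.tail.getVert (i + 1) := by
    intro i hi
    have h1 := hσ ⟨i, by omega⟩
    rw [he, he] at h1
    have : ((⟨i, by omega⟩ + 1 : Fin (M + 3)) : ℕ) = i + 1 := by
      rw [Fin.val_add_one_of_lt']
      exact (by omega : i + 1 < M + 3)
    rw [this] at h1
    exact h1
  refine ⟨σ, ⟨?_, ?_⟩, ?_⟩
  · intro v
    obtain ⟨i, rfl⟩ := e.surjective v
    rcases Nat.lt_or_ge (i.val + 1) (M + 3) with hi | hi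
    · rw [he, hstep _ (by omega)]
      exact p.tail.adj_getVert_succ (by omega)
    · have hi2 : i.val = M + 2 := by omega
      have : p.tail.getVert (M + 2) = a := by
        rw [← hlt]; exact Walk.getVert_length _
      rw [he, hi2, this, hlast]
      exact p.adj_snd hnil
  · intro X hX hcl
    obtain ⟨v, hv⟩ := hX
    obtain ⟨i, rfl⟩ := e.surjective v
    have key : ∀ k : ℕ, e (i + (Fin.ofNat (M+3) k)) ∈ X := by
      intro k
      induction k with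
      | zero => simpa using hv
      | succ k ih =>
        have := hcl _ ih
        rw [hσ] at this
        have h1 : i + Fin.ofNat (M+3) k + 1 = i + Fin.ofNat (M+3) (k+1) := by
          rw [add_assoc]
          congr 1
          ext
          simp [Fin.val_add, Fin.ofNat]
        rwa [h1] at this
    ext w
    simp only [Set.mem_univ, iff_true]
    obtain ⟨j, rfl⟩ := e.surjective w
    have := key (j - i).val
    simpa using this
  · intro f hf
    have h1 : f = s(a, p.snd) ∨ f ∈ p.tail.edges := by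
      have h2 := Walk.cons_tail_eq p hnil
      rw [← h2, Walk.edges_cons, List.mem_cons] at hf
      exact hf
    rcases h1 with rfl | h1
    · exact ⟨a, by rw [hlast]⟩
    · obtain ⟨i, hi, rfl⟩ := edge_walk _ _ h1
      exact ⟨p.tail.getVert i, by rw [hstep i (by omega)]⟩


/-- Every path of order `i` of `G` lies on some Hamilton cycle of `G`. -/
def PathsExtend {V : Type} [DecidableEq V] (G : SimpleGraph V) (i : ℕ) : Prop :=
  ∀ (u v : V) (P : G.Walk u v), P.IsPath → P.support.length = i →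
    ∃ (a : V) (C : G.Walk a a), C.IsHamiltonianCycle ∧
      (∀ x ∈ P.support, x ∈ C.support) ∧ ∀ e ∈ P.edges, e ∈ C.edges

/-- `k` is the Hamiltonian extension number of `G`: the largest `k` with `1 ≤ k ≤ |V|` such that
for every `1 ≤ i ≤ k` every path of order `i` lies on a Hamilton cycle. -/
def IsHE {V : Type} [Fintype V] [DecidableEq V] (G : SimpleGraph V) (k : ℕ) : Prop :=
  IsGreatest {j | 1 ≤ j ∧ j ≤ Fintype.card V ∧ ∀ i, 1 ≤ i → i ≤ j → PathsExtend G i} k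

end Pool.Agent.KS6_19.HE
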