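import Pool.Agent.KS6_19.HE.A

set_option autoImplicit false

namespace Pool.Agent.KS6_19.HE

open SimpleGraph

/-- cubic graphs of girth at least `k` in which all paths of order at most `k` extend -/
structure GK (k : ℕ) {V : Type} (G : SimpleGraph V) : Prop where
  reg : ∀ v, {w | G.Adj v w}.ncard = 3
  gir : ∀ (v p : V) (m : List V) (q : V), (v :: p :: (m ++ [q])).Nodup →
    (v :: p :: (m ++ [q])).IsChain G.Adj → G.Adj q v → k ≤ m.length + 3
  ext : ∀ l : List V, l.length ≤ k → l.Nodup → l.IsChain G.Adj →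
    ∃ σ, IsHam G σ ∧ l.IsChain (fun a b => σ a = b)

lemma GK.other {k : ℕ} {V : Type} {G : SimpleGraph V} (h : GK k G) (v u : V) :
    ∃ w, G.Adj v w ∧ w ≠ u := by
  obtain ⟨x, y, z, hxy, hxz, hyz, hs⟩ := Set.ncard_eq_three.1 (h.reg v)
  by_cases hx : x = u
  · refine ⟨y, ?_, ?_⟩
    · have : y ∈ {w | G.Adj v w} := by rw [hs]; simp
      exact this
    · rw [← hx]; exact hxy.symm
  · refine ⟨x, ?_, hx⟩
    have : x ∈ {w | G.Adj v w} := by rw [hs]; simp
    exact this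

lemma GK.third {k : ℕ} {V : Type} {G : SimpleGraph V} (h : GK k G) (a b : V) :
    ∃ c, c ≠ a ∧ c ≠ b := by
  obtain ⟨w, hw, hw'⟩ := h.other a b
  exact ⟨w, hw.ne', hw'⟩

lemma blocks {A B : Type} : ∀ l : List (A ⊕ B),
    (∃ a b, l = List.map Sum.inl a ++ List.map Sum.inr b) ∨
    (∃ a b, l = List.map Sum.inr b ++ List.map Sum.inl a) ∨
    (∃ s x b x' s', b ≠ [] ∧ l = s ++ (Sum.inl x :: (List.map Sum.inr b ++ Sum.inl x' :: s'))) ∨
    (∃ s y a y' s', a ≠ [] ∧ l = s ++ (Sum.inr y :: (List.map Sum.inl a ++ Sum.inr y' :: s')))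
  | [] => Or.inl ⟨[], [], rfl⟩
  | Sum.inl x :: l => by
    rcases blocks l with ⟨a, b, rfl⟩ | ⟨a, b, rfl⟩ | ⟨s, x', b, x'', s', hb, rfl⟩ |
      ⟨s, x', b, x'', s', hb, rfl⟩
    · exact Or.inl ⟨x :: a, b, rfl⟩
    · rcases b with _ | ⟨b0, b⟩
      · exact Or.inl ⟨x :: a, [], by simp⟩
      rcases a with _ | ⟨a0, a⟩
      · exact Or.inl ⟨[x], b0 :: b, by simp⟩
      · exact Or.inr (Or.inr (Or.inl ⟨[], x, b0 :: b, a0, List.map Sum.inl a, by simp, by simp⟩))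
    · exact Or.inr (Or.inr (Or.inl ⟨Sum.inl x :: s, x', b, x'', s', hb, rfl⟩))
    · exact Or.inr (Or.inr (Or.inr ⟨Sum.inl x :: s, x', b, x'', s', hb, rfl⟩))
  | Sum.inr y :: l => by
    rcases blocks l with ⟨a, b, rfl⟩ | ⟨a, b, rfl⟩ | ⟨s, x', b, x'', s', hb, rfl⟩ |
      ⟨s, x', b, x'', s', hb, rfl⟩
    · rcases a with _ | ⟨a0, a⟩
      · exact Or.inr (Or.inl ⟨[], y :: b, by simp⟩)
      rcases b with _ | ⟨b0, b⟩
      · exact Or.inr (Or.inl ⟨a0 :: a, [y], by simp⟩)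
      · exact Or.inr (Or.inr (Or.inr ⟨[], y, a0 :: a, b0, List.map Sum.inr b, by simp, by simp⟩))
    · exact Or.inr (Or.inl ⟨a, y :: b, rfl⟩)
    · exact Or.inr (Or.inr (Or.inl ⟨Sum.inr y :: s, x', b, x'', s', hb, rfl⟩))
    · exact Or.inr (Or.inr (Or.inr ⟨Sum.inr y :: s, x', b, x'', s', hb, rfl⟩))

lemma gl {α : Type} (p : α) (m : List α) (q : α) : (p :: (m ++ [q])).getLast? = some q := by
  rw [← List.cons_append]; exact List.getLast?_concat

section

variable {V₁ V₂ : Type} {G₁ : SimpleGraph V₁} {v₁ : V₁} {G₂ : SimpleGraph V₂} {v₂ : V₂}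
  {M : V₁ → V₂ → Prop} {k : ℕ}

lemma NbMatch.swap (hM : NbMatch G₁ v₁ G₂ v₂ M) : NbMatch G₂ v₂ G₁ v₁ (fun w u => M u w) :=
  ⟨fun _ _ h => hM.right _ _ h, fun _ _ h => hM.left _ _ h, fun _ _ _ h h' => hM.inj _ _ _ h h',
    fun _ _ _ h h' => hM.func _ _ _ h h', fun u h => hM.surj u h, fun w h => hM.tot w h⟩

/-- a closed walk through `v₂` from a run on the right side -/
lemma noret_aux (h₂ : GK k G₂) (hM : NbMatch G₁ v₁ G₂ v₂ M) {x x' : V₁} (hxx : x ≠ x')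
    (b : List {w : V₂ // w ≠ v₂}) (hb : b ≠ []) (hn : b.Nodup)
    (hc : (b.map Subtype.val).IsChain G₂.Adj) (e1 : ∀ w ∈ b.head?, M x w)
    (e2 : ∀ w ∈ b.getLast?, M x' w) : k ≤ b.length + 1 := by
  rcases b with _ | ⟨p, b⟩
  · exact absurd rfl hb
  rcases List.eq_nil_or_concat' b with rfl | ⟨m, q, rfl⟩
  · have h1 := e1 p (by simp)
    have h2 := e2 p (by simp)
    exact absurd (hM.inj _ _ _ h1 h2) hxx
  · have h1 := e1 p (by simp)
    have h2 := e2 q (by rw [gl]; rfl)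
    have := h₂.gir v₂ p (m.map Subtype.val) q (by
      have h3 : (v₂ :: ((p :: (m ++ [q])).map Subtype.val)).Nodup := by
        rw [List.nodup_cons]
        refine ⟨?_, hn.map Subtype.val_injective⟩
        intro h
        obtain ⟨w, -, hw⟩ := List.mem_map.1 h
        exact w.2 hw
      simpa using h3) (by
      rw [List.isChain_cons_cons]
      refine ⟨hM.right _ _ h1, ?_⟩
      simpa using hc) (hM.right _ _ h2).symm
    simp at this ⊢
    omega

/-- two-sided version, for the glued graph -/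
lemma noret (h₂ : GK k G₂) (hM : NbMatch G₁ v₁ G₂ v₂ M) {x x' : {u : V₁ // u ≠ v₁}} (hxx : x ≠ x')
    (b : List {w : V₂ // w ≠ v₂}) (hb : b ≠ []) (hn : b.Nodup)
    (hc : (Sum.inl x :: (b.map Sum.inr ++ [Sum.inl x'])).IsChain (glue G₁ v₁ G₂ v₂ M).Adj) :
    k ≤ b.length + 1 := by
  rw [List.isChain_cons, List.isChain_append] at hc
  obtain ⟨h1, h2, -, h3⟩ := hc
  refine noret_aux (x := x) (x' := x') h₂ hM (fun h => hxx (Subtype.ext h)) b hb hn ?_ ?_ ?_
  · rw [List.isChain_map] at h2 ⊢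
    exact h2
  · intro w hw
    have := h1 (Sum.inr w) (by
      rcases b with _ | ⟨p, b⟩
      · exact absurd rfl hb
      · simp at hw ⊢; exact hw)
    exact this
  · intro w hw
    have := h3 (Sum.inr w) (by rw [List.getLast?_map]; simp at hw ⊢; exact hw) (Sum.inl x') (by simp)
    exact this

lemma fol_map {τ : Equiv.Perm ({u : V₁ // u ≠ v₁} ⊕ {w : V₂ // w ≠ v₂})} {σ₁ : Equiv.Perm V₁}
    (t1 : ∀ u (hu : u ≠ v₁) (h : σ₁ u ≠ v₁), τ (Sum.inl ⟨u, hu⟩) = Sum.inl ⟨σ₁ u, h⟩)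
    (a : List {u : V₁ // u ≠ v₁}) (ha : (a.map Subtype.val).IsChain (fun x y => σ₁ x = y)) :
    (a.map Sum.inl).IsChain (fun x y => τ x = y) := by
  rw [List.isChain_map] at ha ⊢
  refine ha.imp fun x y h => ?_
  have h' : σ₁ x ≠ v₁ := by rw [h]; exact y.2
  have := t1 x x.2 h'
  rw [show (⟨(x : V₁), x.2⟩ : {u : V₁ // u ≠ v₁}) = x from rfl] at this
  rw [this]
  congr 1
  exact Subtype.ext h

lemma fol_map' {τ : Equiv.Perm ({u : V₁ // u ≠ v₁} ⊕ {w : V₂ // w ≠ v₂})} {σ₂ : Equiv.Perm V₂}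
    (t1 : ∀ u (hu : u ≠ v₂) (h : σ₂ u ≠ v₂), τ (Sum.inr ⟨u, hu⟩) = Sum.inr ⟨σ₂ u, h⟩)
    (a : List {u : V₂ // u ≠ v₂}) (ha : (a.map Subtype.val).IsChain (fun x y => σ₂ x = y)) :
    (a.map Sum.inr).IsChain (fun x y => τ x = y) := by
  rw [List.isChain_map] at ha ⊢
  refine ha.imp fun x y h => ?_
  have h' : σ₂ x ≠ v₂ := by rw [h]; exact y.2
  have := t1 x x.2 h'
  rw [show (⟨(x : V₂), x.2⟩ : {u : V₂ // u ≠ v₂}) = x from rfl] at this
  rw [this]
  congr 1
  exact Subtype.ext h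

variable [Finite V₁] [Finite V₂]

/-- paths inside one part -/
lemma ext_left (hk : 3 ≤ k) (h₁ : GK k G₁) (h₂ : GK k G₂) (hM : NbMatch G₁ v₁ G₂ v₂ M)
    (a : List {u : V₁ // u ≠ v₁}) (hl : a.length ≤ k) (hn : a.Nodup)
    (hc : (a.map Sum.inl).IsChain (glue G₁ v₁ G₂ v₂ M).Adj) :
    ∃ τ, IsHam (glue G₁ v₁ G₂ v₂ M) τ ∧ (a.map Sum.inl).IsChain (fun x y => τ x = y) := by
  obtain ⟨σ₁, s1, f1⟩ := h₁.ext (a.map Subtype.val) (by simpa using hl)
    (hn.map Subtype.val_injective) (by rw [List.isChain_map] at hc ⊢; exact hc)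
  obtain ⟨um, hum⟩ : ∃ um, σ₁ um = v₁ := σ₁.surjective v₁
  obtain ⟨wm, hwm⟩ := hM.tot um (by have := s1.1 um; rw [hum] at this; exact this.symm)
  obtain ⟨wp, hwp⟩ := hM.tot (σ₁ v₁) (s1.1 v₁)
  have hne : wp ≠ wm := by
    rintro rfl
    have h3 := hM.inj _ _ _ hwp hwm
    apply s1.apply_apply_ne h₁.third um
    rw [hum, h3]
  obtain ⟨σ₂, s2, f2⟩ := h₂.ext [wp, v₂, wm] (by simpa using hk) (by
      simp [hne, (hM.right _ _ hwp).ne', (hM.right _ _ hwm).ne]) (by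
      simp [(hM.right _ _ hwp).symm, hM.right _ _ hwm])
  simp at f2
  obtain ⟨τ, t0, t1, -, -, -⟩ := exists_comb' s1 s2 hM hum rfl f2.1 f2.2 hwm hwp
  exact ⟨τ, t0, fol_map t1 a f1⟩

/-- paths crossing once, with a short right part -/
lemma ext_cross (h₁ : GK k G₁) (h₂ : GK k G₂) (hM : NbMatch G₁ v₁ G₂ v₂ M)
    (a : List {u : V₁ // u ≠ v₁}) (x : {u : V₁ // u ≠ v₁}) (y : {w : V₂ // w ≠ v₂})
    (b : List {w : V₂ // w ≠ v₂})
    (hl : a.length + 2 ≤ k) (hl' : b.length + 3 ≤ k) (hna : (a ++ [x]).Nodup) (hnb : (y :: b).Nodup)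
    (hc : ((a ++ [x]).map Sum.inl ++ (y :: b).map Sum.inr).IsChain (glue G₁ v₁ G₂ v₂ M).Adj) :
    ∃ τ, IsHam (glue G₁ v₁ G₂ v₂ M) τ ∧
      ((a ++ [x]).map Sum.inl ++ (y :: b).map Sum.inr).IsChain (fun x y => τ x = y) := by
  rw [List.isChain_append] at hc
  obtain ⟨c1, c2, c3⟩ := hc
  have hxy : M x y := c3 (Sum.inl x) (by simp) (Sum.inr y) (by simp)
  have c1' : ((a ++ [x]).map Subtype.val).IsChain G₁.Adj := by
    rw [List.isChain_map] at c1 ⊢; exact c1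
  have c2' : ((y :: b).map Subtype.val).IsChain G₂.Adj := by
    rw [List.isChain_map] at c2 ⊢; exact c2
  obtain ⟨σ₁, s1, f1⟩ := h₁.ext ((a ++ [x]).map Subtype.val ++ [v₁]) (by simp; omega) (by
      rw [List.nodup_append]
      refine ⟨hna.map Subtype.val_injective, by simp, ?_⟩
      intro u hu w hw
      obtain ⟨u', -, rfl⟩ := List.mem_map.1 hu
      rw [List.mem_singleton] at hw
      rw [hw]; exact u'.2) (by
      rw [List.isChain_append]
      refine ⟨c1', by simp, ?_⟩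
      intro u hu w hw
      simp at hu hw
      rw [← hu, ← hw]
      exact (hM.left _ _ hxy).symm)
  rw [List.isChain_append] at f1
  have hx : σ₁ x = v₁ := f1.2.2 x (by simp) v₁ (by simp)
  obtain ⟨wp, hwp⟩ := hM.tot (σ₁ v₁) (s1.1 v₁)
  have hne : wp ≠ y := by
    rintro rfl
    have h3 := hM.inj _ _ _ hwp hxy
    apply s1.apply_apply_ne h₁.third (x : V₁)
    rw [hx, h3]
  have hwv : wp ≠ v₂ := (hM.right _ _ hwp).ne'
  have hnot : (⟨wp, hwv⟩ : {w : V₂ // w ≠ v₂}) ∉ y :: b := by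
    intro hmem
    rw [List.mem_cons] at hmem
    rcases hmem with hmem | hmem
    · exact hne (congrArg Subtype.val hmem)
    · obtain ⟨s, t, rfl⟩ := List.append_of_mem hmem
      have e : y :: (s ++ ⟨wp, hwv⟩ :: t) = (y :: (s ++ [⟨wp, hwv⟩])) ++ t := by simp
      have h5 := noret_aux (x := (x : V₁)) (x' := σ₁ v₁) h₂ hM (by
        intro h6
        exact s1.apply_apply_ne h₁.third (x : V₁) (by rw [hx, ← h6]))
        (y :: (s ++ [⟨wp, hwv⟩])) (by simp) (by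
          rw [e] at hnb
          exact (List.nodup_append.1 hnb).1) (by
          rw [e, List.map_append] at c2'
          exact (List.isChain_append.1 c2').1) (by simp [hxy]) (by
          intro w hw
          rw [gl] at hw
          simp at hw
          rw [← hw]
          exact hwp)
      simp at h5 hl'
      omega
  obtain ⟨σ₂, s2, f2⟩ := h₂.ext (wp :: v₂ :: (y :: b).map Subtype.val) (by simp; omega) (by
      rw [List.nodup_cons, List.nodup_cons]
      refine ⟨?_, ?_, hnb.map Subtype.val_injective⟩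
      · rw [List.mem_cons, not_or]
        refine ⟨hwv, ?_⟩
        intro h
        obtain ⟨w, hw, hw'⟩ := List.mem_map.1 h
        apply hnot
        have : w = ⟨wp, hwv⟩ := Subtype.ext hw'
        rwa [← this]
      · intro h
        obtain ⟨w, hw, hw'⟩ := List.mem_map.1 h
        exact w.2 hw') (by
      rw [List.isChain_cons_cons]
      refine ⟨(hM.right _ _ hwp).symm, ?_⟩
      rw [List.map_cons, List.isChain_cons_cons]
      exact ⟨hM.right _ _ hxy, by simpa using c2'⟩)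
  rw [List.isChain_cons_cons, List.map_cons, List.isChain_cons_cons] at f2
  obtain ⟨g1, g2, g3⟩ := f2
  obtain ⟨τ, t0, t1, t2, t3, -⟩ := exists_comb' s1 s2 hM hx rfl g1 g2 hxy hwp
  refine ⟨τ, t0, ?_⟩
  rw [List.isChain_append]
  refine ⟨fol_map t1 _ f1.1, fol_map' t2 _ (by simpa using g3), ?_⟩
  intro u hu w hw
  simp at hu hw
  rw [← hu, ← hw]
  exact t3 x x.2 y y.2 hx g2

end

end Pool.Agent.KS6_19.HE
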