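import Pool.Agent.KS6_19.HE.B

set_option autoImplicit false

namespace Pool.Agent.KS6_19.HE

open SimpleGraph

lemma GK.gir' {k : ℕ} {V : Type} {G : SimpleGraph V} (h : GK k G) (l : List V) (h3 : 3 ≤ l.length)
    (hn : l.Nodup) (hc : l.IsChain G.Adj) (hcl : ∀ x ∈ l.head?, ∀ y ∈ l.getLast?, G.Adj y x) :
    k ≤ l.length := by
  rcases l with _ | ⟨v, l⟩
  · simp at h3
  rcases l with _ | ⟨p, l⟩
  · simp at h3
  rcases List.eq_nil_or_concat' l with rfl | ⟨m, q, rfl⟩
  · simp at h3
  have := h.gir v p m q hn hc (hcl v (by simp) q (by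
    rw [show v :: p :: (m ++ [q]) = v :: ((p :: m) ++ [q]) by simp, gl]; rfl))
  simp
  omega

lemma head_last {α : Type} {l : List α} (hn : l.Nodup) {x : α} (h1 : x ∈ l.head?)
    (h2 : x ∈ l.getLast?) : l.length ≤ 1 := by
  rcases l with _ | ⟨v, l⟩
  · simp
  rcases List.eq_nil_or_concat' l with rfl | ⟨m, q, rfl⟩
  · simp
  simp at h1
  rw [gl] at h2
  simp at h2
  subst h1
  subst h2
  simp at hn

section

variable {V₁ V₂ : Type} {G₁ : SimpleGraph V₁} {v₁ : V₁} {G₂ : SimpleGraph V₂} {v₂ : V₂}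
  {M : V₁ → V₂ → Prop} {k : ℕ}

lemma noret' (h₁ : GK k G₁) (hM : NbMatch G₁ v₁ G₂ v₂ M) {x x' : {u : V₂ // u ≠ v₂}} (hxx : x ≠ x')
    (b : List {w : V₁ // w ≠ v₁}) (hb : b ≠ []) (hn : b.Nodup)
    (hc : (Sum.inr x :: (b.map Sum.inl ++ [Sum.inr x'])).IsChain (glue G₁ v₁ G₂ v₂ M).Adj) :
    k ≤ b.length + 1 := by
  rw [List.isChain_cons, List.isChain_append] at hc
  obtain ⟨h1, h2, -, h3⟩ := hc
  refine noret_aux (x := x) (x' := x') h₁ hM.swap (fun h => hxx (Subtype.ext h)) b hb hn ?_ ?_ ?_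
  · rw [List.isChain_map] at h2 ⊢
    exact h2
  · intro w hw
    have := h1 (Sum.inl w) (by
      rcases b with _ | ⟨p, b⟩
      · exact absurd rfl hb
      · simp at hw ⊢; exact hw)
    exact this
  · intro w hw
    have := h3 (Sum.inl w) (by rw [List.getLast?_map]; simp at hw ⊢; exact hw) (Sum.inr x') (by simp)
    exact this

lemma nodup_of_map {α β : Type} {f : α → β} {l : List α} (h : (l.map f).Nodup) : l.Nodup :=
  List.Nodup.of_map f h

/-- the returning cases -/
lemma mid3 (h₂ : GK k G₂) (hM : NbMatch G₁ v₁ G₂ v₂ M) {l : List ({u : V₁ // u ≠ v₁} ⊕ {w : V₂ // w ≠ v₂})}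
    (hn : l.Nodup) (hc : l.IsChain (glue G₁ v₁ G₂ v₂ M).Adj) {s s'} {x x'} {b}
    (hb : b ≠ []) (e : l = s ++ (Sum.inl x :: (List.map Sum.inr b ++ Sum.inl x' :: s'))) :
    k + 1 ≤ l.length := by
  have e' : l = s ++ (Sum.inl x :: (List.map Sum.inr b ++ [Sum.inl x'])) ++ s' := by
    rw [e]; simp
  have hn' : (Sum.inl x :: (List.map Sum.inr b ++ [Sum.inl x'])).Nodup := by
    rw [e'] at hn
    exact (List.nodup_append.1 (List.nodup_append.1 hn).1).2.1
  have hc' : (Sum.inl x :: (List.map Sum.inr b ++ [Sum.inl x'])).IsChain (glue G₁ v₁ G₂ v₂ M).Adj := by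
    rw [e'] at hc
    exact (List.isChain_append.1 (List.isChain_append.1 hc).1).2.1
  have := noret h₂ hM (x := x) (x' := x') (by
    rintro rfl
    simp at hn') b hb (nodup_of_map (f := Sum.inr) (by
      rw [List.nodup_cons, List.nodup_append] at hn'
      exact hn'.2.1)) hc'
  rw [e]
  simp
  omega

lemma mid4 (h₁ : GK k G₁) (hM : NbMatch G₁ v₁ G₂ v₂ M) {l : List ({u : V₁ // u ≠ v₁} ⊕ {w : V₂ // w ≠ v₂})}
    (hn : l.Nodup) (hc : l.IsChain (glue G₁ v₁ G₂ v₂ M).Adj) {s s'} {x x'} {b}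
    (hb : b ≠ []) (e : l = s ++ (Sum.inr x :: (List.map Sum.inl b ++ Sum.inr x' :: s'))) :
    k + 1 ≤ l.length := by
  have e' : l = s ++ (Sum.inr x :: (List.map Sum.inl b ++ [Sum.inr x'])) ++ s' := by
    rw [e]; simp
  have hn' : (Sum.inr x :: (List.map Sum.inl b ++ [Sum.inr x'])).Nodup := by
    rw [e'] at hn
    exact (List.nodup_append.1 (List.nodup_append.1 hn).1).2.1
  have hc' : (Sum.inr x :: (List.map Sum.inl b ++ [Sum.inr x'])).IsChain (glue G₁ v₁ G₂ v₂ M).Adj := by
    rw [e'] at hc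
    exact (List.isChain_append.1 (List.isChain_append.1 hc).1).2.1
  have := noret' h₁ hM (x := x) (x' := x') (by
    rintro rfl
    simp at hn') b hb (nodup_of_map (f := Sum.inl) (by
      rw [List.nodup_cons, List.nodup_append] at hn'
      exact hn'.2.1)) hc'
  rw [e]
  simp
  omega

lemma glue_gir (h₁ : GK k G₁) (h₂ : GK k G₂) (hM : NbMatch G₁ v₁ G₂ v₂ M)
    (l : List ({u : V₁ // u ≠ v₁} ⊕ {w : V₂ // w ≠ v₂})) (h3 : 3 ≤ l.length)
    (hn : l.Nodup) (hc : l.IsChain (glue G₁ v₁ G₂ v₂ M).Adj)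
    (hcl : ∀ x ∈ l.head?, ∀ y ∈ l.getLast?, (glue G₁ v₁ G₂ v₂ M).Adj y x) : k ≤ l.length := by
  -- one-sided lists
  have left : ∀ a : List {u : V₁ // u ≠ v₁}, l = a.map Sum.inl → k ≤ l.length := by
    intro a ha
    have := h₁.gir' (a.map Subtype.val) (by rw [ha] at h3; simpa using h3)
      ((nodup_of_map (f := Sum.inl) (ha ▸ hn)).map Subtype.val_injective) (by
        rw [ha, List.isChain_map] at hc
        rw [List.isChain_map]; exact hc) (by
        intro x hx y hy
        rw [List.head?_map] at hx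
        rw [List.getLast?_map] at hy
        obtain ⟨x', hx', rfl⟩ := Option.mem_map.1 hx
        obtain ⟨y', hy', rfl⟩ := Option.mem_map.1 hy
        exact hcl (Sum.inl x') (by rw [ha, List.head?_map]; exact Option.mem_map.2 ⟨x', hx', rfl⟩)
          (Sum.inl y') (by rw [ha, List.getLast?_map]; exact Option.mem_map.2 ⟨y', hy', rfl⟩))
    rw [ha]; simpa using this
  have right : ∀ a : List {u : V₂ // u ≠ v₂}, l = a.map Sum.inr → k ≤ l.length := by
    intro a ha
    have := h₂.gir' (a.map Subtype.val) (by rw [ha] at h3; simpa using h3)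
      ((nodup_of_map (f := Sum.inr) (ha ▸ hn)).map Subtype.val_injective) (by
        rw [ha, List.isChain_map] at hc
        rw [List.isChain_map]; exact hc) (by
        intro x hx y hy
        rw [List.head?_map] at hx
        rw [List.getLast?_map] at hy
        obtain ⟨x', hx', rfl⟩ := Option.mem_map.1 hx
        obtain ⟨y', hy', rfl⟩ := Option.mem_map.1 hy
        exact hcl (Sum.inr x') (by rw [ha, List.head?_map]; exact Option.mem_map.2 ⟨x', hx', rfl⟩)
          (Sum.inr y') (by rw [ha, List.getLast?_map]; exact Option.mem_map.2 ⟨y', hy', rfl⟩))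
    rw [ha]; simpa using this
  -- the mixed case, with the data at the two crossings
  have mixed : ∀ (a : List {u : V₁ // u ≠ v₁}) (b : List {w : V₂ // w ≠ v₂}) (x x' y y'),
      l.length = a.length + b.length → a.Nodup → b.Nodup → (b.map Sum.inr).IsChain (glue G₁ v₁ G₂ v₂ M).Adj →
      x ∈ a.head? → x' ∈ a.getLast? → y ∈ b.head? → y' ∈ b.getLast? →
      ((M x y' ∧ M x' y) ∨ (M x y ∧ M x' y')) → (x = x' → y = y') →
      k ≤ l.length := by
    intro a b x x' y y' hlen na nb cb hx hx' hy hy' hMM hxy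
    have hb : b ≠ [] := by rintro rfl; simp at hy
    have ha : a ≠ [] := by rintro rfl; simp at hx
    have hal : 1 ≤ a.length := by
      rcases a with _ | _
      · exact absurd rfl ha
      · simp
    by_cases hxx : x = x'
    · have hyy := hxy hxx
      subst hxx
      subst hyy
      have l1 := head_last na hx hx'
      have l2 := head_last nb hy hy'
      omega
    · have cb' : (b.map Subtype.val).IsChain G₂.Adj := by
        rw [List.isChain_map] at cb ⊢; exact cb
      rcases hMM with ⟨m1, m2⟩ | ⟨m1, m2⟩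
      · have := noret_aux (x := (x' : V₁)) (x' := (x : V₁)) h₂ hM (fun h => hxx (Subtype.ext h).symm) b hb nb
          cb' (fun w hw => by rw [Option.mem_unique hw hy]; exact m2)
          (fun w hw => by rw [Option.mem_unique hw hy']; exact m1)
        omega
      · have := noret_aux (x := (x : V₁)) (x' := (x' : V₁)) h₂ hM (fun h => hxx (Subtype.ext h)) b hb nb
          cb' (fun w hw => by rw [Option.mem_unique hw hy]; exact m1)
          (fun w hw => by rw [Option.mem_unique hw hy']; exact m2)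
        omega
  have ends : ∀ {α : Type} (a : List α), a ≠ [] → (∃ x, x ∈ a.head?) ∧ ∃ x, x ∈ a.getLast? := by
    intro α a ha
    exact ⟨⟨a.head ha, by rw [List.head?_eq_some_head ha]; rfl⟩,
      ⟨a.getLast ha, by rw [List.getLast?_eq_some_getLast ha]; rfl⟩⟩
  rcases blocks l with ⟨a, b, e⟩ | ⟨a, b, e⟩ | ⟨s, x', b, x'', s', hb, e⟩ |
      ⟨s, x', b, x'', s', hb, e⟩
  · by_cases hb : b = []
    · subst hb; exact left a (by simpa using e)
    by_cases ha : a = []
    · subst ha; exact right b (by simpa using e)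
    obtain ⟨⟨x, hx⟩, x', hx'⟩ := ends a ha
    obtain ⟨⟨y, hy⟩, y', hy'⟩ := ends b hb
    have hc' := hc
    rw [e, List.isChain_append] at hc'
    have hn' := hn
    rw [e, List.nodup_append] at hn'
    have m1 : M x' y := hc'.2.2 (Sum.inl x') (by rw [List.getLast?_map]; exact Option.mem_map.2 ⟨_, hx', rfl⟩)
      (Sum.inr y) (by rw [List.head?_map]; exact Option.mem_map.2 ⟨_, hy, rfl⟩)
    have m2 : M x y' := hcl (Sum.inl x) (by
        rw [e, List.head?_append, List.head?_map]
        rw [Option.mem_def] at hx ⊢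
        rw [hx]; rfl) (Sum.inr y') (by
        rw [e, List.getLast?_append, List.getLast?_map, List.getLast?_map]
        rw [Option.mem_def] at hy' ⊢
        rw [hy']; rfl)
    refine mixed a b x x' y y' (by rw [e]; simp) (nodup_of_map hn'.1) (nodup_of_map hn'.2.1) hc'.2.1
      hx hx' hy hy' (Or.inl ⟨m2, m1⟩) ?_
    rintro rfl
    exact Subtype.ext (hM.func _ _ _ m1 m2)
  · by_cases hb : b = []
    · subst hb; exact left a (by simpa using e)
    by_cases ha : a = []
    · subst ha; exact right b (by simpa using e)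
    obtain ⟨⟨x, hx⟩, x', hx'⟩ := ends a ha
    obtain ⟨⟨y, hy⟩, y', hy'⟩ := ends b hb
    have hc' := hc
    rw [e, List.isChain_append] at hc'
    have hn' := hn
    rw [e, List.nodup_append] at hn'
    have m1 : M x y' := hc'.2.2 (Sum.inr y') (by rw [List.getLast?_map]; exact Option.mem_map.2 ⟨_, hy', rfl⟩)
      (Sum.inl x) (by rw [List.head?_map]; exact Option.mem_map.2 ⟨_, hx, rfl⟩)
    have m2 : M x' y := hcl (Sum.inr y) (by
        rw [e, List.head?_append, List.head?_map]
        rw [Option.mem_def] at hy ⊢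
        rw [hy]; rfl) (Sum.inl x') (by
        rw [e, List.getLast?_append, List.getLast?_map, List.getLast?_map]
        rw [Option.mem_def] at hx' ⊢
        rw [hx']; rfl)
    refine mixed a b x x' y y' (by rw [e]; simp [add_comm]) (nodup_of_map hn'.2.1) (nodup_of_map hn'.1) hc'.1
      hx hx' hy hy' (Or.inl ⟨m1, m2⟩) ?_
    rintro rfl
    exact Subtype.ext (hM.func _ _ _ m2 m1)
  · have := mid3 h₂ hM hn hc hb e
    omega
  · have := mid4 h₁ hM hn hc hb e
    omega

/-- some Hamilton cycle follows the list -/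
def Ext {V : Type} (G : SimpleGraph V) (l : List V) : Prop :=
  ∃ τ, IsHam G τ ∧ l.IsChain (fun x y => τ x = y)

lemma Ext.rev {V : Type} {G : SimpleGraph V} {l : List V} (h : Ext G l.reverse) : Ext G l := by
  obtain ⟨τ, h1, h2⟩ := h
  refine ⟨τ.symm, h1.inv, ?_⟩
  rw [List.isChain_reverse] at h2
  refine h2.imp fun a b h => ?_
  rw [← h]; simp

lemma adj_swap (x y : {u : V₁ // u ≠ v₁} ⊕ {w : V₂ // w ≠ v₂}) :
    (glue G₂ v₂ G₁ v₁ (fun w u => M u w)).Adj x.swap y.swap ↔ (glue G₁ v₁ G₂ v₂ M).Adj x y := by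
  rcases x with x | x <;> rcases y with y | y <;> exact Iff.rfl

lemma Ext.swap {l : List ({u : V₁ // u ≠ v₁} ⊕ {w : V₂ // w ≠ v₂})}
    (h : Ext (glue G₂ v₂ G₁ v₁ (fun w u => M u w)) (l.map Sum.swap)) :
    Ext (glue G₁ v₁ G₂ v₂ M) l := by
  obtain ⟨τ, h1, h2⟩ := h
  let τ' : Equiv.Perm ({u : V₁ // u ≠ v₁} ⊕ {w : V₂ // w ≠ v₂}) :=
    (Equiv.sumComm _ _).trans (τ.trans (Equiv.sumComm _ _))
  have e : ∀ x, τ' x = (τ x.swap).swap := fun x => rfl
  refine ⟨τ', ⟨fun v => ?_, fun X hX hcl => ?_⟩, ?_⟩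
  · rw [← adj_swap, e, Sum.swap_swap]
    exact h1.1 _
  · have := h1.2 {z | z.swap ∈ X} (by
      obtain ⟨x, hx⟩ := hX
      exact ⟨x.swap, by rw [Set.mem_ofPred_eq, Sum.swap_swap]; exact hx⟩) (by
      intro z hz
      have := hcl _ hz
      rw [e, Sum.swap_swap] at this
      exact this)
    ext x
    simp only [Set.mem_univ, iff_true]
    have hx : x.swap ∈ {z | z.swap ∈ X} := by rw [this]; trivial
    rw [Set.mem_ofPred_eq, Sum.swap_swap] at hx
    exact hx
  · rw [List.isChain_map] at h2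
    refine h2.imp fun a b h => ?_
    rw [e, h, Sum.swap_swap]

variable [Finite V₁] [Finite V₂]

lemma ext_case1 (hk : 3 ≤ k) (h₁ : GK k G₁) (h₂ : GK k G₂) (hM : NbMatch G₁ v₁ G₂ v₂ M)
    (a : List {u : V₁ // u ≠ v₁}) (b : List {w : V₂ // w ≠ v₂}) (hl : a.length + b.length ≤ k)
    (hna : a.Nodup) (hnb : b.Nodup)
    (hc : (a.map Sum.inl ++ b.map Sum.inr).IsChain (glue G₁ v₁ G₂ v₂ M).Adj) :
    Ext (glue G₁ v₁ G₂ v₂ M) (a.map Sum.inl ++ b.map Sum.inr) := by
  rcases b with _ | ⟨y, b⟩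
  · simp only [List.map_nil, List.append_nil] at hc ⊢
    exact ext_left hk h₁ h₂ hM a (by simpa using hl) hna hc
  rcases List.eq_nil_or_concat' a with rfl | ⟨a, x, rfl⟩
  · apply Ext.swap
    have e : (List.map Sum.inl ([] : List {u : V₁ // u ≠ v₁}) ++ List.map Sum.inr (y :: b)).map Sum.swap =
        (y :: b).map Sum.inl := by simp
    rw [e]
    refine ext_left hk h₂ h₁ hM.swap (y :: b) (by simpa using hl) hnb ?_
    rw [← e, List.isChain_map]
    exact hc.imp fun x y h => (adj_swap x y).2 h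
  · simp only [List.length_append, List.length_cons, List.length_nil] at hl
    by_cases hb : b.length + 3 ≤ k
    · exact ext_cross h₁ h₂ hM a x y b (by omega) hb hna hnb hc
    · have ha : a = [] := List.length_eq_zero_iff.1 (by omega)
      subst ha
      apply Ext.swap
      apply Ext.rev
      have e : ((List.map Sum.inl ([] ++ [x]) ++ List.map Sum.inr (y :: b)).map Sum.swap).reverse =
          (b.reverse ++ [y]).map Sum.inl ++ [x].map Sum.inr := by simp [List.map_reverse]
      rw [e]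
      refine ext_cross h₂ h₁ hM.swap b.reverse y x [] (by simp; omega) (by simpa using hk) (by
        have := List.nodup_reverse.2 hnb
        simpa using this) (by simp) ?_
      rw [← e, List.isChain_reverse, List.isChain_map]
      exact hc.imp fun x y h => ((adj_swap x y).2 h).symm

lemma glue_gk (hk : 3 ≤ k) (h₁ : GK k G₁) (h₂ : GK k G₂) (hM : NbMatch G₁ v₁ G₂ v₂ M) :
    GK k (glue G₁ v₁ G₂ v₂ M) := by
  refine ⟨glue_reg h₁.reg h₂.reg hM, ?_, ?_⟩
  · intro v p m q h1 h2 h3
    have := glue_gir h₁ h₂ hM (v :: p :: (m ++ [q])) (by simp) h1 h2 (by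
      intro x hx y hy
      rw [show v :: p :: (m ++ [q]) = v :: ((p :: m) ++ [q]) by simp, gl] at hy
      simp at hx hy
      rw [← hx, ← hy]; exact h3)
    simp at this
    omega
  · intro l hl hn hc
    rcases blocks l with ⟨a, b, rfl⟩ | ⟨a, b, rfl⟩ | ⟨s, x', b, x'', s', hb, e⟩ |
      ⟨s, x', b, x'', s', hb, e⟩
    · have hn' := List.nodup_append.1 hn
      exact ext_case1 hk h₁ h₂ hM a b (by simpa using hl) (nodup_of_map hn'.1)
        (nodup_of_map hn'.2.1) hc
    · have hn' := List.nodup_append.1 hn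
      apply Ext.swap
      have e : (List.map Sum.inr b ++ List.map Sum.inl a : List ({u : V₁ // u ≠ v₁} ⊕ {w : V₂ // w ≠ v₂})).map Sum.swap =
          b.map Sum.inl ++ a.map Sum.inr := by
        simp only [List.map_append, List.map_map]
        rfl
      rw [e]
      refine ext_case1 hk h₂ h₁ hM.swap b a (by simpa using hl) (nodup_of_map hn'.1)
        (nodup_of_map hn'.2.1) ?_
      rw [← e, List.isChain_map]
      exact hc.imp fun x y h => (adj_swap x y).2 h
    · have := mid3 h₂ hM hn hc hb e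
      omega
    · have := mid4 h₁ hM hn hc hb e
      omega

end

end Pool.Agent.KS6_19.HE
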