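import Pool.Agent.KS6_19.HE.C

set_option autoImplicit false

namespace Pool.Agent.KS6_19.HE

open SimpleGraph

/-- a cycle with `k` vertices, displayed as `v, p, r, m, r', q` -/
def HasCyc (k : ℕ) {V : Type} (G : SimpleGraph V) : Prop :=
  ∃ (v p r : V) (m : List V) (r' q : V), (v :: p :: r :: (m ++ [r', q])).Nodup ∧
    (v :: p :: r :: (m ++ [r', q])).IsChain G.Adj ∧ G.Adj q v ∧ m.length + 5 = k

lemma GK.pathsExtend {k : ℕ} {V : Type} [Fintype V] [DecidableEq V] {G : SimpleGraph V} (h : GK k G)
    (hc : 3 ≤ Fintype.card V) (i : ℕ) (hi : i ≤ k) : PathsExtend G i := by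
  intro u v P hP hlen
  obtain ⟨σ, hσ, hf⟩ := h.ext P.support (by omega) hP.support_nodup P.isChain_adj_support
  obtain ⟨a, C, hC, hCe⟩ := exists_cycle_of_isHam hσ hc
  refine ⟨a, C, hC, fun x _ => hC.mem_support x, ?_⟩
  intro e he
  obtain ⟨j, hj, rfl⟩ := edge_walk P e he
  have hl : j + 1 < P.support.length := by rw [P.length_support]; omega
  have h1 := List.isChain_iff_getElem.1 hf j hl
  have e1 : P.getVert j = P.support[j] := P.getVert_eq_support_getElem (by omega)
  have e2 : P.getVert (j + 1) = P.support[j + 1] := P.getVert_eq_support_getElem (by omega)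
  rw [e1, e2, ← h1]
  exact hCe _

lemma third_nb {k : ℕ} {V : Type} {G : SimpleGraph V} (h : GK k G) {p v r : V} :
    ∃ x, G.Adj p x ∧ x ≠ v ∧ x ≠ r := by
  by_contra hcon
  push Not at hcon
  have hsub : {w | G.Adj p w} ⊆ {v, r} := by
    intro w hw
    by_cases hv : w = v
    · simp [hv]
    · have := hcon w hw hv
      simp [this]
  have h1 := Set.ncard_le_ncard hsub (Set.toFinite _)
  rw [h.reg p] at h1
  have h2 : ({v, r} : Set V).ncard ≤ 2 := Set.ncard_insert_le v {r} |>.trans (by simp)
  omega

/-- in a cubic graph the end of a run is known up to the third neighbour -/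
lemma nb3 {k : ℕ} {V : Type} {G : SimpleGraph V} (h : GK k G) {v p q z w : V} (hp : G.Adj v p) (hq : G.Adj v q)
    (hz : G.Adj v z) (hpq : p ≠ q) (hzp : z ≠ p) (hzq : z ≠ q) (hw : G.Adj v w) :
    w = p ∨ w = q ∨ w = z := by
  obtain ⟨a, b, c, hab, hac, hbc, hs⟩ := Set.ncard_eq_three.1 (h.reg v)
  have e : ∀ u, G.Adj v u ↔ u = a ∨ u = b ∨ u = c := by
    intro u
    have : u ∈ {w | G.Adj v w} ↔ u ∈ ({a, b, c} : Set V) := by rw [hs]
    simpa using this
  rw [e] at hp hq hz hw
  rcases hp with rfl | rfl | rfl <;> rcases hq with rfl | rfl | rfl <;>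
    rcases hz with rfl | rfl | rfl <;> rcases hw with rfl | rfl | rfl <;> simp_all

lemma not_extend {k : ℕ} (hk : 5 ≤ k) {V : Type} [Fintype V] [DecidableEq V] {G : SimpleGraph V}
    (h : GK k G) (hcyc : HasCyc k G) (hc : 3 ≤ Fintype.card V) : ¬ PathsExtend G (k + 1) := by
  obtain ⟨v, p, r, m, r', q, hn, hch, hqv, hm⟩ := hcyc
  obtain ⟨x, hpx, hxv, hxr⟩ := third_nb h (p := p) (v := v) (r := r)
  obtain ⟨y, hqy, hyv, hyr⟩ := third_nb h (p := q) (v := v) (r := r')
  have hn0 := hn
  have hch0 := hch
  -- basic consequences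
  have hvp : G.Adj v p := (List.isChain_cons_cons.1 hch).1
  have hch1 : (p :: r :: (m ++ [r', q])).IsChain G.Adj := (List.isChain_cons_cons.1 hch).2
  have hpr : G.Adj p r := (List.isChain_cons_cons.1 hch1).1
  have hn1 : (p :: r :: (m ++ [r', q])).Nodup := (List.nodup_cons.1 hn).2
  have hvn : v ∉ p :: r :: (m ++ [r', q]) := (List.nodup_cons.1 hn).1
  have e1 : p :: r :: (m ++ [r', q]) = (p :: r :: (m ++ [r'])) ++ [q] := by simp
  have hrq : G.Adj r' q := by
    have h1 := hch1
    rw [show p :: r :: (m ++ [r', q]) = (p :: r :: m) ++ [r', q] by simp, List.isChain_append] at h1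
    exact (List.isChain_cons_cons.1 h1.2.1).1
  have hpq : p ≠ q := by
    rintro rfl
    simp at hn1
  -- `x`, `y` are not on the run
  have hx : x ∉ p :: r :: (m ++ [r', q]) := by
    intro hmem
    rw [List.mem_cons, List.mem_cons] at hmem
    rcases hmem with hmem | hmem | hmem
    · exact hpx.ne hmem.symm
    · exact hxr hmem
    · obtain ⟨s, t, hst⟩ := List.append_of_mem hmem
      have hlen := congrArg List.length hst
      simp at hlen
      rw [hst] at hn1 hch1
      have hp1 : p :: r :: (s ++ x :: t) = (p :: r :: (s ++ [x])) ++ t := by simp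
      rw [hp1] at hn1 hch1
      have := h.gir p r s x (List.nodup_append.1 hn1).1 (List.isChain_append.1 hch1).1 hpx.symm
      omega
  have hnr : (q :: r' :: (m.reverse ++ [r, p])).Nodup := by
    have := List.nodup_reverse.2 hn1
    simpa using this
  have hchr : (q :: r' :: (m.reverse ++ [r, p])).IsChain G.Adj := by
    have : ((p :: r :: (m ++ [r', q])).reverse).IsChain G.Adj :=
      List.isChain_reverse.2 (hch1.imp fun _ _ h => h.symm)
    simpa using this
  have hy : y ∉ p :: r :: (m ++ [r', q]) := by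
    intro hmem0
    have hmem : y ∈ q :: r' :: (m.reverse ++ [r, p]) := by
      simp only [List.mem_cons, List.mem_append, List.mem_reverse, List.not_mem_nil, or_false] at hmem0 ⊢
      tauto
    rw [List.mem_cons, List.mem_cons] at hmem
    rcases hmem with hmem | hmem | hmem
    · exact hqy.ne hmem.symm
    · exact hyr hmem
    · obtain ⟨s, t, hst⟩ := List.append_of_mem hmem
      have hlen := congrArg List.length hst
      simp at hlen
      rw [hst] at hnr hchr
      have hp1 : q :: r' :: (s ++ y :: t) = (q :: r' :: (s ++ [y])) ++ t := by simp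
      rw [hp1] at hnr hchr
      have := h.gir q r' s y (List.nodup_append.1 hnr).1 (List.isChain_append.1 hchr).1 hqy.symm
      omega
  have hxy : x ≠ y := by
    rintro rfl
    have := h.gir x p [v] q (by
      have h1 : x ≠ p := hpx.ne'
      have h2 : x ≠ q := hqy.ne'
      have h3 : p ≠ v := hvp.ne'
      have h4 : v ≠ q := hqv.ne'
      simp [h1, h2, h3, h4, hxv, hpq]) (by
      simp [hpx.symm, hvp.symm, hqv.symm]) hqy
    simp at this
    omega
  intro hext
  -- the walk
  set L : List V := x :: ((p :: r :: (m ++ [r', q])) ++ [y]) with hL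
  have hLn : L.Nodup := by
    rw [hL, List.nodup_cons]
    refine ⟨?_, ?_⟩
    · rw [List.mem_append, not_or]
      exact ⟨hx, by simpa using hxy⟩
    · rw [List.nodup_append]
      refine ⟨hn1, by simp, ?_⟩
      intro a ha b hb
      rw [List.mem_singleton] at hb
      rintro rfl
      exact hy (hb ▸ ha)
  have hLc : L.IsChain G.Adj := by
    rw [hL, List.isChain_cons]
    refine ⟨?_, ?_⟩
    · intro z hz
      simp at hz
      rw [← hz]; exact hpx.symm
    · rw [List.isChain_append]
      refine ⟨hch1, by simp, ?_⟩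
      intro z hz w hw
      rw [e1, List.getLast?_concat] at hz
      simp at hz hw
      rw [← hz, ← hw]; exact hqy
  have hne : L ≠ [] := by simp [hL]
  let P := Walk.ofSupport (G := G) L hne hLc
  have hPs : P.support = L := Walk.support_ofSupport hne hLc
  obtain ⟨a, C, hC, -, hCe⟩ := hext _ _ P (by rw [Walk.isPath_def, hPs]; exact hLn) (by
    rw [hPs, hL]; simp; omega)
  obtain ⟨τ, hτ, hτe⟩ := exists_isHam_of_cycle hc C hC
  have hLlen : L.length = P.length + 1 := by
    have := P.length_support
    rw [hPs] at this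
    exact this
  have key : ∀ j (hj : j + 1 < L.length), τ L[j] = L[j+1] ∨ τ L[j+1] = L[j] := by
    intro j hj
    have h1 := hCe _ (walk_edge P j (by omega))
    have e1 : P.getVert j = P.support[j]'(by rw [hPs]; omega) := P.getVert_eq_support_getElem (by omega)
    have e2 : P.getVert (j + 1) = P.support[j + 1]'(by rw [hPs]; omega) := P.getVert_eq_support_getElem (by omega)
    rw [e1, e2] at h1
    simp only [hPs] at h1
    obtain ⟨z, hz⟩ := hτe _ h1
    rw [Sym2.eq_iff] at hz
    rcases hz with ⟨h2, h3⟩ | ⟨h2, h3⟩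
    · left; rw [h2, h3]
    · right; rw [h2, h3]
  -- the four relevant edges
  have k0 := key 0 (by simp [hL])
  have k1 := key 1 (by simp [hL])
  have hxp : τ x = p ∨ τ p = x := k0
  have hpr' : τ p = r ∨ τ r = p := k1
  have hrq' : τ r' = q ∨ τ q = r' := by
    have := key (m.length + 3) (by simp [hL])
    simpa [hL] using this
  have hqy' : τ q = y ∨ τ y = q := by
    have := key (m.length + 4) (by simp [hL])
    simpa [hL, List.getElem_append_right] using this
  have inj := τ.injective
  have hvx : v ≠ x := hxv.symm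
  have hvy : v ≠ y := hyv.symm
  have hvr : v ≠ r := fun h => hvn (by simp [h])
  have hvr' : v ≠ r' := fun h => hvn (by simp [h])
  -- `τ v ≠ p`
  have n1 : τ v ≠ p := by
    intro hv
    rcases hxp with h1 | h1
    · exact hvx (inj (hv.trans h1.symm))
    rcases hpr' with h2 | h2
    · exact hxr (h1.symm.trans h2)
    · exact hvr (inj (hv.trans h2.symm))
  have n2 : τ v ≠ q := by
    intro hv
    rcases hqy' with h1 | h1
    · rcases hrq' with h2 | h2
      · exact hvr' (inj (hv.trans h2.symm))
      · exact hyr (h1.symm.trans h2)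
    · exact hvy (inj (hv.trans h1.symm))
  have n3 : τ p ≠ v := by
    intro hv
    rcases hxp with h1 | h1
    · rcases hpr' with h2 | h2
      · exact hvr (hv.symm.trans h2)
      · exact hxr (inj (h1.trans h2.symm))
    · exact hvx (hv.symm.trans h1)
  have n4 : τ q ≠ v := by
    intro hv
    rcases hqy' with h1 | h1
    · exact hvy (hv.symm.trans h1)
    · rcases hrq' with h2 | h2
      · exact hyr (inj (h1.trans h2.symm))
      · exact hvr' (hv.symm.trans h2)
  obtain ⟨z, hz1, hz2, hz3⟩ := third_nb h (p := v) (v := p) (r := q)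
  have a1 : τ v = z := by
    rcases nb3 h hvp hqv.symm hz1 hpq hz2 hz3 (hτ.1 v) with h1 | h1 | h1
    · exact absurd h1 n1
    · exact absurd h1 n2
    · exact h1
  obtain ⟨w, hw⟩ := τ.surjective v
  have a2 : w = z := by
    have hadj : G.Adj v w := by have := hτ.1 w; rw [hw] at this; exact this.symm
    rcases nb3 h hvp hqv.symm hz1 hpq hz2 hz3 hadj with h1 | h1 | h1
    · exact absurd (h1 ▸ hw) n3
    · exact absurd (h1 ▸ hw) n4
    · exact h1
  apply hτ.apply_apply_ne h.third v
  rw [a1, ← a2, hw]

theorem GK.isHE {k : ℕ} (hk : 5 ≤ k) {V : Type} [Fintype V] [DecidableEq V] {G : SimpleGraph V}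
    (h : GK k G) (hcyc : HasCyc k G) :
    (∀ v, (G.neighborSet v).ncard = 3) ∧ G.IsHamiltonian ∧ IsHE G k := by
  have hcard : k ≤ Fintype.card V := by
    obtain ⟨v, p, r, m, r', q, hn, -, -, hm⟩ := hcyc
    have := hn.length_le_card
    simp at this
    omega
  refine ⟨fun v => h.reg v, ?_, ⟨⟨by omega, hcard, fun i _ hi => h.pathsExtend (by omega) i hi⟩, ?_⟩⟩
  · intro _
    obtain ⟨σ, hσ, -⟩ := h.ext [] (by simp) (by simp) (by simp)
    obtain ⟨a, C, hC, -⟩ := exists_cycle_of_isHam hσ (by omega)
    exact ⟨a, C, hC⟩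
  · rintro j ⟨-, -, hj⟩
    by_contra hcon
    push Not at hcon
    exact not_extend hk h hcyc (by omega) (hj (k + 1) (by omega) (by omega))

end Pool.Agent.KS6_19.HE
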