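import Pool.Agent.KS6_19.HE.D

set_option autoImplicit false

namespace Pool.Agent.KS6_19.HE

open SimpleGraph

/-! Graphs on `Fin n` given by packed tables, checked by the kernel. -/

/-- the `i`-th neighbour of `x` -/
def nbr (nb x i : ℕ) : ℕ := (nb >>> (18 * x + 6 * i)) % 64

/-- the set of the cycles which leave `x` through its `i`-th neighbour -/
def msk (nc M x i : ℕ) : ℕ := (M >>> (nc * (3 * x + i))) % 2 ^ nc

def suc (nc nb M c x : ℕ) : ℕ :=
  if (msk nc M x 0).testBit c then nbr nb x 0 else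
    if (msk nc M x 1).testBit c then nbr nb x 1 else nbr nb x 2

def allB : ℕ → (ℕ → Bool) → Bool
  | 0, _ => true
  | n+1, f => f n && allB n f

lemma allB_spec {n : ℕ} {f : ℕ → Bool} (h : allB n f = true) : ∀ i < n, f i = true := by
  induction n with
  | zero => intro i hi; omega
  | succ n ih =>
    rw [allB, Bool.and_eq_true] at h
    intro i hi
    rcases Nat.lt_succ_iff_lt_or_eq.1 hi with h1 | h1
    · exact ih h.2 i h1
    · rw [h1]; exact h.1

def force : ℕ → (ℕ → Bool) → Bool
  | 0, f => f 0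
  | n+1, f => f (n+1)

lemma force_eq (n : ℕ) (f : ℕ → Bool) : force n f = f n := by cases n <;> rfl

/-- the orbit of `0` under the `c`-th cycle -/
def orb (nc nb M n c : ℕ) : ℕ → ℕ → ℕ → Bool
  | 0, cur, acc => cur == 0 && acc == 2 ^ n - 1
  | s+1, cur, acc => force (suc nc nb M c cur) fun w => force (acc ||| (1 <<< cur)) fun a => orb nc nb M n c s w a

/-- all non-backtracking walks are followed by a cycle -/
def chk (nc nb M : ℕ) : ℕ → ℕ → ℕ → ℕ → Bool
  | 0, _, _, m => m != 0
  | f+1, prev, cur, m =>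
    allB 3 fun i => force (nbr nb cur i) fun w =>
      w == prev || force (m &&& msk nc M cur i) fun m' => chk nc nb M f cur w m'

/-- no non-backtracking walk returns to `s` -/
def gch (nb s : ℕ) : ℕ → ℕ → ℕ → Bool
  | 0, _, _ => true
  | f+1, prev, cur =>
    allB 3 fun i => force (nbr nb cur i) fun w =>
      w == prev || (w != s && gch nb s f cur w)

def check (k nc nb M n : ℕ) : Bool :=
  allB n (fun x => allB 3 fun i => force (nbr nb x i) fun w => decide (w < n) && w != x &&
    (nbr nb w 0 == x || nbr nb w 1 == x || nbr nb w 2 == x)) &&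
  allB n (fun x => nbr nb x 0 != nbr nb x 1 && nbr nb x 0 != nbr nb x 2 && nbr nb x 1 != nbr nb x 2) &&
  allB n (fun x => msk nc M x 0 &&& msk nc M x 1 == 0 && msk nc M x 0 &&& msk nc M x 2 == 0 &&
    msk nc M x 1 &&& msk nc M x 2 == 0) &&
  allB nc (fun c => orb nc nb M n c n 0 0) &&
  allB n (fun x => allB 3 fun i => force (nbr nb x i) fun w => force (msk nc M x i) fun m =>
    chk nc nb M (k - 2) x w m) &&
  allB n (fun x => allB 3 fun i => force (nbr nb x i) fun w => gch nb x (k - 2) x w)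

/-- the graph -/
def gr (nb n : ℕ) : SimpleGraph (Fin n) where
  Adj a b := a ≠ b ∧ (∃ i : Fin 3, nbr nb a i = b) ∧ ∃ i : Fin 3, nbr nb b i = a
  symm := ⟨fun _ _ h => ⟨h.1.symm, h.2.2, h.2.1⟩⟩
  loopless := ⟨fun _ h => h.1 rfl⟩

section

variable {k nc nb M n : ℕ} (hcheck : check k nc nb M n = true)

include hcheck

lemma c1 (x : ℕ) (hx : x < n) (i : ℕ) (hi : i < 3) :
    nbr nb x i < n ∧ nbr nb x i ≠ x ∧ ∃ j : Fin 3, nbr nb (nbr nb x i) j = x := by
  simp only [check, Bool.and_eq_true] at hcheck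
  have := allB_spec (allB_spec hcheck.1.1.1.1.1 x hx) i hi
  rw [force_eq] at this
  simp only [Bool.and_eq_true, decide_eq_true_eq, bne_iff_ne, Bool.or_eq_true, beq_iff_eq] at this
  refine ⟨this.1.1, this.1.2, ?_⟩
  rcases this.2 with (h | h) | h
  · exact ⟨0, h⟩
  · exact ⟨1, h⟩
  · exact ⟨2, h⟩

lemma c2 (x : ℕ) (hx : x < n) : nbr nb x 0 ≠ nbr nb x 1 ∧ nbr nb x 0 ≠ nbr nb x 2 ∧
    nbr nb x 1 ≠ nbr nb x 2 := by
  simp only [check, Bool.and_eq_true] at hcheck
  have := allB_spec hcheck.1.1.1.1.2 x hx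
  simp only [Bool.and_eq_true, bne_iff_ne] at this
  exact ⟨this.1.1, this.1.2, this.2⟩

lemma c3 (x : ℕ) (hx : x < n) (i j : ℕ) (hi : i < 3) (hj : j < 3) (hij : i ≠ j) :
    msk nc M x i &&& msk nc M x j = 0 := by
  simp only [check, Bool.and_eq_true] at hcheck
  have := allB_spec hcheck.1.1.1.2 x hx
  simp only [Bool.and_eq_true, beq_iff_eq] at this
  obtain ⟨⟨h1, h2⟩, h3⟩ := this
  have hi' : i = 0 ∨ i = 1 ∨ i = 2 := by omega
  have hj' : j = 0 ∨ j = 1 ∨ j = 2 := by omega
  rcases hi' with rfl | rfl | rfl <;> rcases hj' with rfl | rfl | rfl <;>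
    first
    | exact absurd rfl hij
    | assumption
    | (rw [Nat.land_comm]; assumption)

lemma c4 (c : ℕ) (hc : c < nc) : orb nc nb M n c n 0 0 = true := by
  simp only [check, Bool.and_eq_true] at hcheck
  exact allB_spec hcheck.1.1.2 c hc

lemma c5 (x : ℕ) (hx : x < n) (i : ℕ) (hi : i < 3) :
    chk nc nb M (k - 2) x (nbr nb x i) (msk nc M x i) = true := by
  simp only [check, Bool.and_eq_true] at hcheck
  have := allB_spec (allB_spec hcheck.1.2 x hx) i hi
  rw [force_eq, force_eq] at this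
  exact this

lemma c6 (x : ℕ) (hx : x < n) (i : ℕ) (hi : i < 3) : gch nb x (k - 2) x (nbr nb x i) = true := by
  simp only [check, Bool.and_eq_true] at hcheck
  have := allB_spec (allB_spec hcheck.2 x hx) i hi
  rw [force_eq] at this
  exact this

lemma adj_iff (a b : Fin n) : (gr nb n).Adj a b ↔ ∃ i : Fin 3, nbr nb a i = b := by
  constructor
  · exact fun h => h.2.1
  · rintro ⟨i, hi⟩
    obtain ⟨h1, h2, h3⟩ := c1 hcheck a a.2 i i.2
    refine ⟨fun h => h2 (hi.trans (congrArg Fin.val h.symm)), ⟨i, hi⟩, ?_⟩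
    rwa [hi] at h3

lemma gr_reg (v : Fin n) : {w | (gr nb n).Adj v w}.ncard = 3 := by
  have h := fun i : Fin 3 => c1 hcheck v v.2 i i.2
  obtain ⟨d1, d2, d3⟩ := c2 hcheck v v.2
  have e : {w | (gr nb n).Adj v w} = {⟨nbr nb v 0, (h 0).1⟩, ⟨nbr nb v 1, (h 1).1⟩, ⟨nbr nb v 2, (h 2).1⟩} := by
    ext w
    rw [Set.mem_ofPred_eq, adj_iff hcheck, Fin.exists_fin_succ, Fin.exists_fin_succ, Fin.exists_fin_succ]
    simp only [Set.mem_insert_iff, Set.mem_singleton_iff, Fin.ext_iff]
    simp [eq_comm]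
  rw [e]
  exact Set.ncard_eq_three.2 ⟨_, _, _, by simpa [Fin.ext_iff] using d1, by simpa [Fin.ext_iff] using d2,
    by simpa [Fin.ext_iff] using d3, rfl⟩

lemma suc_of_mask (c x : ℕ) (hx : x < n) (i : ℕ) (hi : i < 3) (h : (msk nc M x i).testBit c = true) :
    suc nc nb M c x = nbr nb x i := by
  have ex : ∀ j, j < 3 → j ≠ i → (msk nc M x j).testBit c = false := by
    intro j hj hji
    have := congrArg (fun t => t.testBit c) (c3 hcheck x hx j i hj hi hji)
    simp only [Nat.testBit_land, Nat.zero_testBit, Bool.and_eq_false_iff] at this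
    rcases this with h1 | h1
    · exact h1
    · rw [h] at h1; cases h1
  unfold suc
  have hi' : i = 0 ∨ i = 1 ∨ i = 2 := by omega
  rcases hi' with rfl | rfl | rfl
  · rw [if_pos h]
  · rw [if_neg (by rw [ex 0 (by omega) (by omega)]; simp), if_pos h]
  · rw [if_neg (by rw [ex 0 (by omega) (by omega)]; simp),
      if_neg (by rw [ex 1 (by omega) (by omega)]; simp)]

omit hcheck in
lemma suc_eq (c x : ℕ) : ∃ i : Fin 3, suc nc nb M c x = nbr nb x i := by
  unfold suc
  split_ifs
  · exact ⟨0, rfl⟩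
  · exact ⟨1, rfl⟩
  · exact ⟨2, rfl⟩

omit hcheck in
lemma orb_spec (c : ℕ) : ∀ s cur acc, orb nc nb M n c s cur acc = true →
    (suc nc nb M c)^[s] cur = 0 ∧ ∀ v < n, acc.testBit v = true ∨ ∃ j < s, (suc nc nb M c)^[j] cur = v := by
  intro s
  induction s with
  | zero =>
    intro cur acc h
    simp only [orb, Bool.and_eq_true, beq_iff_eq] at h
    refine ⟨h.1, fun v hv => Or.inl ?_⟩
    rw [h.2, Nat.testBit_two_pow_sub_one]
    simpa using hv
  | succ s ih =>
    intro cur acc h
    rw [orb, force_eq, force_eq] at h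
    obtain ⟨h1, h2⟩ := ih _ _ h
    refine ⟨h1, fun v hv => ?_⟩
    rcases h2 v hv with h3 | ⟨j, hj, h3⟩
    · rw [Nat.testBit_lor, Bool.or_eq_true] at h3
      rcases h3 with h3 | h3
      · exact Or.inl h3
      · right
        refine ⟨0, by omega, ?_⟩
        rw [Nat.testBit_shiftLeft] at h3
        simp only [ge_iff_le, Bool.and_eq_true, decide_eq_true_eq] at h3
        obtain ⟨h4, h5⟩ := h3
        have : v - cur = 0 := by
          by_contra hne
          rw [Nat.testBit_one_eq_true_iff_self_eq_zero] at h5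
          exact hne h5
        change cur = v
        omega
    · exact Or.inr ⟨j + 1, by omega, h3⟩

lemma gr_ham (hn : 0 < n) (c : ℕ) (hc : c < nc) :
    ∃ σ : Equiv.Perm (Fin n), IsHam (gr nb n) σ ∧ ∀ v, ((σ v : Fin n) : ℕ) = suc nc nb M c v := by
  obtain ⟨h1, h2⟩ := orb_spec c n 0 0 (c4 hcheck c hc)
  have hlt : ∀ v : Fin n, suc nc nb M c v < n := by
    intro v
    obtain ⟨i, hi⟩ := suc_eq (nc := nc) (nb := nb) (M := M) c v
    rw [hi]
    exact (c1 hcheck v v.2 i i.2).1
  let g : Fin n → Fin n := fun v => ⟨suc nc nb M c v, hlt v⟩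
  have hit : ∀ (j : ℕ) (v : Fin n), ((g^[j] v : Fin n) : ℕ) = (suc nc nb M c)^[j] v := by
    intro j
    induction j with
    | zero => intro v; rfl
    | succ j ih => intro v; rw [Function.iterate_succ_apply, Function.iterate_succ_apply, ih]
  let z : Fin n := ⟨0, hn⟩
  have hz : g^[n] z = z := Fin.ext (by rw [hit]; exact h1)
  have hcov : ∀ v : Fin n, ∃ j < n, g^[j] z = v := by
    intro v
    rcases h2 v v.2 with h3 | ⟨j, hj, h3⟩
    · simp at h3
    · exact ⟨j, hj, Fin.ext (by rw [hit]; exact h3)⟩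
  have hsurj : Function.Surjective g := by
    intro v
    obtain ⟨j, hj, rfl⟩ := hcov v
    rcases j with _ | j
    · refine ⟨g^[n-1] z, ?_⟩
      rw [← Function.iterate_succ_apply' g, show (n-1).succ = n by omega, hz]
      rfl
    · exact ⟨g^[j] z, by rw [← Function.iterate_succ_apply' g]⟩
  let σ : Equiv.Perm (Fin n) := Equiv.ofBijective g (Finite.surjective_iff_bijective.1 hsurj)
  refine ⟨σ, ⟨fun v => ?_, ?_⟩, fun v => rfl⟩
  · rw [adj_iff hcheck]
    obtain ⟨i, hi⟩ := suc_eq (nc := nc) (nb := nb) (M := M) c v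
    exact ⟨i, hi.symm⟩
  · rintro X ⟨v, hv⟩ hcl
    have key : ∀ (j : ℕ) (w : Fin n), w ∈ X → g^[j] w ∈ X := by
      intro j
      induction j with
      | zero => exact fun w hw => hw
      | succ j ih =>
        intro w hw
        rw [Function.iterate_succ_apply]
        exact ih _ (hcl w hw)
    obtain ⟨j, hj, rfl⟩ := hcov v
    have h0 : z ∈ X := by
      have := key (n - j) _ hv
      rw [← Function.iterate_add_apply, show n - j + j = n by omega, hz] at this
      exact this
    ext w
    simp only [Set.mem_univ, iff_true]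
    obtain ⟨j, -, rfl⟩ := hcov w
    exact key _ _ h0

lemma chk_spec : ∀ (f : ℕ) (prev cur : Fin n) (m : ℕ), chk nc nb M f prev cur m = true →
    ∀ l : List (Fin n), l.length = f → (prev :: cur :: l).Nodup → (cur :: l).IsChain (gr nb n).Adj →
    ∃ c, m.testBit c = true ∧ (cur :: l).IsChain (fun a b : Fin n => suc nc nb M c a = b) := by
  intro f
  induction f with
  | zero =>
    intro prev cur m h l hl _ _
    rw [List.length_eq_zero_iff] at hl
    subst hl
    simp only [chk, bne_iff_ne] at h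
    obtain ⟨c, hc⟩ := Nat.exists_testBit_of_ne_zero h
    exact ⟨c, hc, by simp⟩
  | succ f ih =>
    intro prev cur m h l hl hn hc
    rcases l with _ | ⟨w, l⟩
    · simp at hl
    rw [List.isChain_cons_cons] at hc
    obtain ⟨i, hi⟩ := (adj_iff hcheck _ _).1 hc.1
    rw [chk] at h
    have h1 := allB_spec h i i.2
    rw [force_eq, hi, force_eq] at h1
    have hwp : (w : ℕ) ≠ prev := by
      intro hh
      have : w = prev := Fin.ext hh
      subst this
      simp at hn
    simp only [Bool.or_eq_true, beq_iff_eq, hwp, false_or] at h1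
    obtain ⟨c, hc1, hc2⟩ := ih cur w _ h1 l (by simpa using hl) (List.nodup_cons.1 hn).2 hc.2
    rw [Nat.testBit_land, Bool.and_eq_true] at hc1
    refine ⟨c, hc1.1, ?_⟩
    rw [List.isChain_cons_cons]
    refine ⟨?_, hc2⟩
    rw [suc_of_mask hcheck c cur cur.2 i i.2 hc1.2, hi]

omit hcheck in
lemma msk_lt (c x i : ℕ) (h : (msk nc M x i).testBit c = true) : c < nc := by
  by_contra hc
  rw [msk, Nat.testBit_mod_two_pow] at h
  simp [hc] at h

lemma gch_spec (s : Fin n) : ∀ (f : ℕ) (prev cur : Fin n), gch nb s f prev cur = true →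
    ∀ l : List (Fin n), l.length ≤ f → (prev :: cur :: l).Nodup ∨ (prev = s ∧ (cur :: l).Nodup ∧ ∀ w ∈ l.head?, w ≠ prev) →
    (cur :: l).IsChain (gr nb n).Adj → s ∉ l := by
  intro f
  induction f with
  | zero =>
    intro prev cur _ l hl _ _
    have : l = [] := List.length_eq_zero_iff.1 (by omega)
    simp [this]
  | succ f ih =>
    intro prev cur h l hl hn hc
    rcases l with _ | ⟨w, l⟩
    · simp
    rw [List.isChain_cons_cons] at hc
    obtain ⟨i, hi⟩ := (adj_iff hcheck _ _).1 hc.1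
    rw [gch] at h
    have h1 := allB_spec h i i.2
    rw [force_eq, hi] at h1
    have hwp : (w : ℕ) ≠ prev := by
      intro hh
      have : w = prev := Fin.ext hh
      subst this
      rcases hn with hn | ⟨-, -, hn⟩
      · simp at hn
      · exact hn w (by simp) rfl
    simp only [Bool.or_eq_true, beq_iff_eq, hwp, false_or, Bool.and_eq_true, bne_iff_ne] at h1
    rw [List.mem_cons, not_or]
    refine ⟨fun hh => h1.1 (by rw [← hh]), ?_⟩
    refine ih cur w h1.2 l (by simpa using hl) (Or.inl ?_) hc.2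
    rcases hn with hn | ⟨-, hn, -⟩
    · exact (List.nodup_cons.1 hn).2
    · exact hn

omit hcheck in
lemma gir_list {V : Type} {G : SimpleGraph V}
    (hg : ∀ (v p : V) (m : List V) (q : V), (v :: p :: (m ++ [q])).Nodup →
      (v :: p :: (m ++ [q])).IsChain G.Adj → G.Adj q v → k ≤ m.length + 3)
    (w : V) (r : List V) (t u : V) (hn : (w :: (r ++ [t, u])).Nodup)
    (hc : (w :: (r ++ [t, u])).IsChain G.Adj) (hu : G.Adj u w) : k ≤ r.length + 3 := by
  rcases r with _ | ⟨p, r⟩
  · exact hg w t [] u hn hc hu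
  · have := hg w p (r ++ [t]) u (by simpa using hn) (by simpa using hc) hu
    simp at this ⊢
    omega

theorem base_gk (hk : 3 ≤ k) (hn : 0 < n) : GK k (gr nb n) := by
  have reg := gr_reg hcheck
  have gir : ∀ (v p : Fin n) (m : List (Fin n)) (q : Fin n), (v :: p :: (m ++ [q])).Nodup →
      (v :: p :: (m ++ [q])).IsChain (gr nb n).Adj → (gr nb n).Adj q v → k ≤ m.length + 3 := by
    intro v p m q h1 h2 h3
    by_contra hlt
    push Not at hlt
    rw [List.isChain_cons_cons] at h2
    obtain ⟨i, hi⟩ := (adj_iff hcheck _ _).1 h2.1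
    have h4 := c6 hcheck v v.2 i i.2
    rw [hi] at h4
    have := gch_spec hcheck v (k - 2) v p h4 (m ++ [q] ++ [v]) (by simp; omega) (Or.inr ⟨rfl, ?_, ?_⟩) ?_
    · simp at this
    · have e : p :: (m ++ [q] ++ [v]) = (p :: (m ++ [q])) ++ [v] := by simp
      rw [e, List.nodup_append]
      refine ⟨(List.nodup_cons.1 h1).2, by simp, ?_⟩
      intro a ha b hb
      rw [List.mem_singleton] at hb
      rintro rfl
      exact (List.nodup_cons.1 h1).1 (hb ▸ ha)
    · intro w hw
      rintro rfl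
      apply (List.nodup_cons.1 h1).1
      rcases m with _ | ⟨m0, m⟩
      · simp at hw; simp [← hw]
      · simp at hw; simp [← hw]
    · have e : p :: (m ++ [q] ++ [v]) = (p :: (m ++ [q])) ++ [v] := by simp
      rw [e, List.isChain_append]
      refine ⟨h2.2, by simp, ?_⟩
      intro a ha b hb
      rw [gl] at ha
      simp at ha hb
      rw [← ha, ← hb]; exact h3
  refine ⟨reg, gir, ?_⟩
  have exact_k : ∀ l : List (Fin n), l.length = k → l.Nodup → l.IsChain (gr nb n).Adj →
      ∃ σ, IsHam (gr nb n) σ ∧ l.IsChain (fun a b => σ a = b) := by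
    intro l hl hnd hc
    rcases l with _ | ⟨x, l⟩
    · simp at hl; omega
    rcases l with _ | ⟨y, l⟩
    · simp at hl; omega
    rw [List.isChain_cons_cons] at hc
    obtain ⟨i, hi⟩ := (adj_iff hcheck _ _).1 hc.1
    have h4 := c5 hcheck x x.2 i i.2
    rw [hi] at h4
    obtain ⟨c, hc1, hc2⟩ := chk_spec hcheck (k - 2) x y _ h4 l (by simp at hl; omega) hnd hc.2
    have hs := suc_of_mask hcheck c x x.2 i i.2 hc1
    obtain ⟨σ, hσ, hσ'⟩ := gr_ham hcheck hn c (msk_lt c _ _ hc1)
    refine ⟨σ, hσ, ?_⟩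
    rw [List.isChain_cons_cons]
    refine ⟨Fin.ext (by rw [hσ', hs, hi]), hc2.imp fun a b h => Fin.ext (by rw [hσ', h])⟩
  have short : ∀ j, ∀ l : List (Fin n), l.length + j = k → l.Nodup → l.IsChain (gr nb n).Adj →
      ∃ σ, IsHam (gr nb n) σ ∧ l.IsChain (fun a b => σ a = b) := by
    intro j
    induction j with
    | zero => exact fun l hl => exact_k l hl
    | succ j ih =>
      intro l hl hnd hc
      obtain ⟨w, hw1, hw2⟩ : ∃ w, (l ++ [w]).Nodup ∧ (l ++ [w]).IsChain (gr nb n).Adj := by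
        rcases List.eq_nil_or_concat' l with rfl | ⟨l0, u, rfl⟩
        · exact ⟨⟨0, hn⟩, by simp, by simp⟩
        rcases List.eq_nil_or_concat' l0 with rfl | ⟨l1, t, rfl⟩
        · obtain ⟨a, b, c, hab, hac, hbc, hs⟩ := Set.ncard_eq_three.1 (reg u)
          have hua : (gr nb n).Adj u a := by
            have : a ∈ {w | (gr nb n).Adj u w} := by rw [hs]; simp
            exact this
          exact ⟨a, (by simpa using hua.ne), (by simpa using hua)⟩
        · obtain ⟨w, hw, hwt⟩ : ∃ w, (gr nb n).Adj u w ∧ w ≠ t := by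
            by_contra hcon
            push Not at hcon
            have hsub : {w | (gr nb n).Adj u w} ⊆ {t} := fun w hw => hcon w hw
            have h1 := Set.ncard_le_ncard hsub (Set.toFinite _)
            rw [reg u] at h1
            simp at h1
          refine ⟨w, ?_, ?_⟩
          · rw [List.nodup_append]
            refine ⟨hnd, by simp, ?_⟩
            intro a ha b hb
            rw [List.mem_singleton] at hb
            subst hb
            rintro rfl
            rw [List.mem_append, List.mem_append] at ha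
            rcases ha with (ha | ha) | ha
            · obtain ⟨s, r, rfl⟩ := List.append_of_mem ha
              have e : s ++ a :: r ++ [t] ++ [u] = s ++ (a :: (r ++ [t, u])) := by simp
              rw [e] at hnd hc
              have := gir_list gir a r t u (List.nodup_append.1 hnd).2.1
                (List.isChain_append.1 hc).2.1 hw
              simp at hl
              omega
            · exact hwt (by simpa using ha)
            · exact hw.ne' (by simpa using ha)
          · rw [List.isChain_append]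
            refine ⟨hc, by simp, ?_⟩
            intro a ha b hb
            rw [List.getLast?_concat] at ha
            simp at ha hb
            rw [← ha, ← hb]; exact hw
      obtain ⟨σ, h1, h2⟩ := ih (l ++ [w]) (by simp; omega) hw1 hw2
      exact ⟨σ, h1, (List.isChain_append.1 h2).1⟩
  exact fun l hl => short (k - l.length) l (by omega)

end

instance (nb n : ℕ) : DecidableRel (gr nb n).Adj := fun a b =>
  inferInstanceAs (Decidable (a ≠ b ∧ (∃ i : Fin 3, nbr nb a i = b) ∧ ∃ i : Fin 3, nbr nb b i = a))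

/-- a `k`-cycle which avoids the vertex `v₂` -/
def HasCycAv (k : ℕ) {V : Type} (G : SimpleGraph V) (v₂ : V) : Prop :=
  ∃ (v p r : {w : V // w ≠ v₂}) (m : List {w : V // w ≠ v₂}) (r' q : {w : V // w ≠ v₂}),
    (v :: p :: r :: (m ++ [r', q])).Nodup ∧
    (v :: p :: r :: (m ++ [r', q])).IsChain (fun a b : {w : V // w ≠ v₂} => G.Adj a b) ∧ G.Adj q v ∧ m.length + 5 = k

lemma HasCycAv.toCyc {k : ℕ} {V : Type} {G : SimpleGraph V} {v₂ : V} (h : HasCycAv k G v₂) : HasCyc k G := by
  obtain ⟨v, p, r, m, r', q, h1, h2, h3, h4⟩ := h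
  refine ⟨v, p, r, m.map Subtype.val, r', q, ?_, ?_, h3, by simpa using h4⟩
  · have := h1.map Subtype.val_injective
    simpa using this
  · have : ((v :: p :: r :: (m ++ [r', q])).map Subtype.val).IsChain G.Adj := by
      rw [List.isChain_map]; exact h2
    simpa using this

lemma HasCycAv.glue {k : ℕ} {V₁ V₂ : Type} {G₁ : SimpleGraph V₁} {v₁ : V₁} {G₂ : SimpleGraph V₂} {v₂ : V₂}
    {M : V₁ → V₂ → Prop} (h : HasCycAv k G₂ v₂) : HasCyc k (glue G₁ v₁ G₂ v₂ M) := by
  obtain ⟨v, p, r, m, r', q, h1, h2, h3, h4⟩ := h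
  refine ⟨Sum.inr v, Sum.inr p, Sum.inr r, m.map Sum.inr, Sum.inr r', Sum.inr q, ?_, ?_, h3, by simpa using h4⟩
  · have := h1.map (f := (Sum.inr : _ → {u : V₁ // u ≠ v₁} ⊕ _)) Sum.inr_injective
    simpa using this
  · have : ((v :: p :: r :: (m ++ [r', q])).map (Sum.inr : _ → {u : V₁ // u ≠ v₁} ⊕ _)).IsChain
        (HE.glue G₁ v₁ G₂ v₂ M).Adj := by
      rw [List.isChain_map]; exact h2
    simpa using this

/-- the possible orders, minus two -/
def SS (k d : ℕ) : Prop :=
  ∃ (V : Type) (_ : Fintype V) (_ : DecidableEq V) (G : SimpleGraph V),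
    Fintype.card V = d + 2 ∧ GK k G ∧ HasCyc k G

/-- pieces which can be glued on -/
def PC (k d : ℕ) : Prop :=
  ∃ (V : Type) (_ : Fintype V) (_ : DecidableEq V) (G : SimpleGraph V) (v : V),
    Fintype.card V = d + 2 ∧ GK k G ∧ HasCycAv k G v

lemma PC.toSS {k d : ℕ} (h : PC k d) : SS k d := by
  obtain ⟨V, i1, i2, G, v, h1, h2, h3⟩ := h
  exact ⟨V, i1, i2, G, h1, h2, h3.toCyc⟩

lemma SS.add {k d e : ℕ} (hk : 3 ≤ k) (h : SS k d) (h' : PC k e) : SS k (d + e) := by
  obtain ⟨V, i1, i2, G, h1, h2, h3⟩ := h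
  obtain ⟨W, j1, j2, H, w, g1, g2, g3⟩ := h'
  obtain ⟨v⟩ : Nonempty V := Fintype.card_pos_iff.1 (by omega)
  obtain ⟨M, hM⟩ := exists_nbMatch h2.reg g2.reg v w
  refine ⟨_, inferInstance, inferInstance, glue G v H w M, ?_, glue_gk hk h2 g2 hM, g3.glue⟩
  rw [Fintype.card_sum, Fintype.card_subtype_compl, Fintype.card_subtype_compl,
    Fintype.card_subtype_eq, Fintype.card_subtype_eq]
  omega

end Pool.Agent.KS6_19.HE
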