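import Pool.Agent.KS6_19.HE.F5
import Pool.Agent.KS6_19.HE.F6
import Pool.Agent.KS6_19.HE.F7

set_option autoImplicit false

namespace Pool.Agent.KS6_19.HE

open SimpleGraph

lemma ss5 (d : ℕ) (hd : Even d) (h : 18 ≤ d) : SS 5 d := by
  induction d using Nat.strong_induction_on with
  | _ d ih =>
    obtain ⟨e, he⟩ := hd
    by_cases h2 : 36 ≤ d
    · have := (ih (d - 18) (by omega) ⟨e - 9, by omega⟩ (by omega)).add (by norm_num) pc20_5
      rwa [show d - 18 + (20 - 2) = d by omega] at this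
    · have : d = 18 ∨ d = 20 ∨ d = 22 ∨ d = 24 ∨ d = 26 ∨ d = 28 ∨ d = 30 ∨ d = 32 ∨ d = 34 := by omega
      rcases this with rfl | rfl | rfl | rfl | rfl | rfl | rfl | rfl | rfl
      · exact pc20_5.toSS
      · exact pc22_5.toSS
      · exact pc24_5.toSS
      · exact pc26_5.toSS
      · exact pc28_5.toSS
      · exact pc30_5.toSS
      · exact pc32_5.toSS
      · exact pc34_5.toSS
      · exact pc36_5.toSS

lemma ss6 (d : ℕ) (hd : Even d) (h : 16 ≤ d) : SS 6 d := by
  induction d using Nat.strong_induction_on with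
  | _ d ih =>
    obtain ⟨e, he⟩ := hd
    by_cases h2 : 28 ≤ d
    · have := (ih (d - 12) (by omega) ⟨e - 6, by omega⟩ (by omega)).add (by norm_num) pc14_6
      rwa [show d - 12 + (14 - 2) = d by omega] at this
    · have : d = 16 ∨ d = 18 ∨ d = 20 ∨ d = 22 ∨ d = 24 ∨ d = 26 := by omega
      rcases this with rfl | rfl | rfl | rfl | rfl | rfl
      · exact pc18_6.toSS
      · exact pc20_6.toSS
      · exact pc22_6.toSS
      · exact pc24_6.toSS
      · exact pc14_6.toSS.add (by norm_num) pc14_6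
      · exact pc28_6.toSS

lemma ss7_aux (j : ℕ) (hj : 1 ≤ j) : ∀ d, Even d → 38 * j ≤ d → d ≤ 44 * j → SS 7 d := by
  induction j, hj using Nat.le_induction with
  | base =>
    rintro d ⟨e, he⟩ h1 h2
    have : d = 38 ∨ d = 40 ∨ d = 42 ∨ d = 44 := by omega
    rcases this with rfl | rfl | rfl | rfl
    · exact pc40_7.toSS
    · exact pc42_7.toSS
    · exact pc44_7.toSS
    · exact pc46_7.toSS
  | succ j hj ih =>
    rintro d ⟨e, he⟩ h1 h2
    by_cases h3 : d ≤ 44 * j + 38
    · have := (ih (d - 38) ⟨e - 19, by omega⟩ (by omega) (by omega)).add (by norm_num) pc40_7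
      rwa [show d - 38 + (40 - 2) = d by omega] at this
    · have := (ih (d - 44) ⟨e - 22, by omega⟩ (by omega) (by omega)).add (by norm_num) pc46_7
      rwa [show d - 44 + (46 - 2) = d by omega] at this

lemma ss7 (d : ℕ) (hd : Even d) (h : 228 ≤ d) : SS 7 d := by
  obtain ⟨e, he⟩ := hd
  refine ss7_aux (d / 38) (by omega) d ⟨e, he⟩ (by omega) (by omega)

end Pool.Agent.KS6_19.HE
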